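import Pool.Agent.Q146.FVD.Net

/-!
# Finite families of balls; covering by maps which are constant on small sets
-/

set_option autoImplicit false

open MeasureTheory Metric Set Filter Topology InnerProductGeometry

namespace Pool.Agent.Q146.FVD

open Pool.Agent.H241R3.FV Pool.Agent.Q146.FVC

/-- two balls that meet are contained in a ball of radius the sum -/
theorem merge_two {n : ℕ} (x y : E n) {r s : ℝ} (hr : 0 ≤ r) (hs : 0 ≤ s)
    (h : dist x y ≤ r + s) :
    ∃ z : E n, closedBall x r ⊆ closedBall z (r + s) ∧ closedBall y s ⊆ closedBall z (r + s) := by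
  rcases (add_nonneg hr hs).eq_or_lt with h0 | h0
  · have h1 : x = y := by
      rw [← h0] at h
      exact dist_le_zero.1 h
    refine ⟨x, closedBall_subset_closedBall (by linarith), ?_⟩
    rw [h1]
    exact closedBall_subset_closedBall (by linarith)
  · set c := s / (r + s) with hc
    have hc1 : c * (r + s) = s := div_mul_cancel₀ _ h0.ne'
    have hc0 : 0 ≤ c := div_nonneg hs h0.le
    have hc2 : 0 ≤ 1 - c := by
      rw [sub_nonneg, hc, div_le_one h0]; linarith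
    refine ⟨x + c • (y - x), ?_, ?_⟩
    · refine closedBall_subset_closedBall' ?_
      have : dist x (x + c • (y - x)) = c * dist x y := by
        rw [dist_eq_norm, sub_add_cancel_left, norm_neg, norm_smul, Real.norm_of_nonneg hc0,
          dist_comm, dist_eq_norm]
      rw [this]
      have := mul_le_mul_of_nonneg_left h hc0
      linarith
    · refine closedBall_subset_closedBall' ?_
      have : dist y (x + c • (y - x)) = (1 - c) * dist x y := by
        rw [dist_eq_norm, show y - (x + c • (y - x)) = (1 - c) • (y - x) by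
          rw [sub_smul, one_smul]; abel, norm_smul, Real.norm_of_nonneg hc2, dist_comm,
          dist_eq_norm]
      rw [this]
      have := mul_le_mul_of_nonneg_left h hc2
      nlinarith

/-- balls can be merged into disjoint balls -/
theorem merge {n : ℕ} (k : ℕ) : ∀ s : Finset (E n × ℝ), s.card = k → (∀ b ∈ s, 0 ≤ b.2) →
    ∃ t : Finset (E n × ℝ), (∀ b ∈ t, 0 ≤ b.2) ∧
      (∀ b ∈ t, ∀ b' ∈ t, b ≠ b' → b.2 + b'.2 < dist b.1 b'.1) ∧
      (∀ b ∈ s, ∃ b' ∈ t, closedBall b.1 b.2 ⊆ closedBall b'.1 b'.2) ∧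
      ∑ b ∈ t, b.2 ≤ ∑ b ∈ s, b.2 := by
  classical
  induction k using Nat.strong_induction_on with
  | _ k ih =>
    intro s hs h0
    by_cases hd : ∀ b ∈ s, ∀ b' ∈ s, b ≠ b' → b.2 + b'.2 < dist b.1 b'.1
    · exact ⟨s, h0, hd, fun b hb => ⟨b, hb, Subset.rfl⟩, le_rfl⟩
    push Not at hd
    obtain ⟨b, hb, b', hb', hne, hle⟩ := hd
    obtain ⟨z, hz1, hz2⟩ := merge_two b.1 b'.1 (h0 b hb) (h0 b' hb') hle
    set s1 := (s.erase b).erase b' with hs1
    have hb'1 : b' ∈ s.erase b := Finset.mem_erase.2 ⟨hne.symm, hb'⟩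
    have hc1 : s1.card = k - 2 := by
      rw [hs1, Finset.card_erase_of_mem hb'1, Finset.card_erase_of_mem hb, hs]
      omega
    have hk : 2 ≤ k := by
      have h1 : (s.erase b).card = k - 1 := by rw [Finset.card_erase_of_mem hb, hs]
      have h2 : 0 < (s.erase b).card := Finset.card_pos.2 ⟨b', hb'1⟩
      omega
    set s2 := insert (z, b.2 + b'.2) s1 with hs2
    have hc2 : s2.card < k := by
      have := Finset.card_insert_le (z, b.2 + b'.2) s1
      rw [hs2]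
      omega
    have h02 : ∀ c ∈ s2, 0 ≤ c.2 := by
      intro c hc
      rw [hs2, Finset.mem_insert] at hc
      rcases hc with rfl | hc
      · exact add_nonneg (h0 b hb) (h0 b' hb')
      · exact h0 c (Finset.mem_of_mem_erase (Finset.mem_of_mem_erase hc))
    obtain ⟨t, ht0, ht1, ht2, ht3⟩ := ih s2.card hc2 s2 rfl h02
    refine ⟨t, ht0, ht1, ?_, ?_⟩
    · intro c hc
      by_cases hcb : c = b
      · obtain ⟨b'', hb'', hsub⟩ := ht2 (z, b.2 + b'.2) (Finset.mem_insert_self _ _)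
        exact ⟨b'', hb'', by rw [hcb]; exact hz1.trans hsub⟩
      by_cases hcb' : c = b'
      · obtain ⟨b'', hb'', hsub⟩ := ht2 (z, b.2 + b'.2) (Finset.mem_insert_self _ _)
        exact ⟨b'', hb'', by rw [hcb']; exact hz2.trans hsub⟩
      exact ht2 c (Finset.mem_insert_of_mem
        (Finset.mem_erase.2 ⟨hcb', Finset.mem_erase.2 ⟨hcb, hc⟩⟩))
    · refine ht3.trans ?_
      have e1 : ∑ c ∈ s, c.2 = b.2 + (b'.2 + ∑ c ∈ s1, c.2) := by
        rw [hs1, ← Finset.add_sum_erase _ _ hb, ← Finset.add_sum_erase _ _ hb'1]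
      rw [e1]
      by_cases hm : (z, b.2 + b'.2) ∈ s1
      · rw [hs2, Finset.insert_eq_of_mem hm]
        have := h0 b hb
        have := h0 b' hb'
        linarith
      · rw [hs2, Finset.sum_insert hm]
        linarith

/-- the weight of a ball -/
noncomputable def wt {n : ℕ} (ε : ℝ) (b : E n × ℝ) (z : E n) : ℝ :=
  max 0 (min 1 (1 - (dist z b.1 - b.2) / ε))

theorem wt_cont {n : ℕ} (ε : ℝ) (b : E n × ℝ) : Continuous (wt ε b) := by
  unfold wt
  exact continuous_const.max (continuous_const.min (continuous_const.sub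
    (((continuous_id.dist continuous_const).sub continuous_const).div_const ε)))

theorem wt_one {n : ℕ} {ε : ℝ} (hε : 0 < ε) {b : E n × ℝ} {z : E n}
    (h : z ∈ closedBall b.1 b.2) : wt ε b z = 1 := by
  unfold wt
  rw [mem_closedBall] at h
  have h1 : (dist z b.1 - b.2) / ε ≤ 0 := div_nonpos_of_nonpos_of_nonneg (by linarith) hε.le
  rw [min_eq_left (by linarith), max_eq_right zero_le_one]

theorem wt_zero {n : ℕ} {ε : ℝ} (hε : 0 < ε) {b : E n × ℝ} {z : E n}
    (h : b.2 + ε ≤ dist z b.1) : wt ε b z = 0 := by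
  unfold wt
  have h1 : 1 ≤ (dist z b.1 - b.2) / ε := by
    rw [le_div_iff₀ hε]; linarith
  exact max_eq_left ((min_le_right _ _).trans (by linarith))

theorem wt_mem {n : ℕ} (ε : ℝ) (b : E n × ℝ) (z : E n) : 0 ≤ wt ε b z ∧ wt ε b z ≤ 1 :=
  ⟨le_max_left _ _, max_le zero_le_one (min_le_left _ _)⟩

/-- the displacement of the collapsing map -/
noncomputable def disp {n : ℕ} (ε : ℝ) (t : Finset (E n × ℝ)) (z : E n) : E n :=
  ∑ b ∈ t, wt ε b z • (z - b.1)

theorem disp_cont {n : ℕ} (ε : ℝ) (t : Finset (E n × ℝ)) : Continuous (disp ε t) := by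
  unfold disp
  exact continuous_finsetSum _ fun b _ => (wt_cont ε b).smul (continuous_id.sub continuous_const)

/-- at most one ball contributes -/
theorem disp_eq {n : ℕ} {ε : ℝ} (hε : 0 < ε) {t : Finset (E n × ℝ)}
    (ht : ∀ b ∈ t, ∀ b' ∈ t, b ≠ b' → b.2 + ε + (b'.2 + ε) < dist b.1 b'.1) {b : E n × ℝ}
    (hb : b ∈ t) {z : E n} (hz : dist z b.1 ≤ b.2 + ε) : disp ε t z = wt ε b z • (z - b.1) := by
  unfold disp
  refine Finset.sum_eq_single b (fun b' hb' hne => ?_) (fun h => absurd hb h)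
  have h1 := ht b hb b' hb' hne.symm
  have h2 := dist_triangle b.1 z b'.1
  rw [dist_comm b.1 z] at h2
  rw [wt_zero hε (by linarith), zero_smul]

theorem collapse_mem {n : ℕ} {ε : ℝ} (hε : 0 < ε) {t : Finset (E n × ℝ)}
    (ht : ∀ b ∈ t, ∀ b' ∈ t, b ≠ b' → b.2 + ε + (b'.2 + ε) < dist b.1 b'.1) {b : E n × ℝ}
    (hb : b ∈ t) (h0 : 0 ≤ b.2) {z : E n} (hz : z ∈ closedBall b.1 b.2) :
    z - disp ε t z = b.1 := by
  have h1 := mem_closedBall.1 hz
  rw [disp_eq hε ht hb (by linarith), wt_one hε hz, one_smul]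
  abel

theorem collapse_ne {n : ℕ} {ε : ℝ} (hε : 0 < ε) {t : Finset (E n × ℝ)}
    (ht : ∀ b ∈ t, ∀ b' ∈ t, b ≠ b' → b.2 + ε + (b'.2 + ε) < dist b.1 b'.1) {y z : E n}
    (hy : ∀ b ∈ t, b.2 + ε < dist y b.1) (hz : z ≠ y) {c : ℝ} (hc0 : 0 ≤ c) (hc1 : c ≤ 1) :
    z - c • disp ε t z ≠ y := by
  by_cases h : ∃ b ∈ t, dist z b.1 ≤ b.2 + ε
  · obtain ⟨b, hb, hzb⟩ := h
    intro heq
    have h1 := hy b hb
    rw [← heq, disp_eq hε ht hb hzb] at h1
    have h2 : dist (z - c • wt ε b z • (z - b.1)) b.1 ≤ dist z b.1 := by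
      rw [dist_eq_norm, show z - c • wt ε b z • (z - b.1) - b.1 = (1 - c * wt ε b z) • (z - b.1) by
        rw [sub_smul, one_smul, smul_smul]; abel, norm_smul, dist_eq_norm]
      obtain ⟨w0, w1⟩ := wt_mem ε b z
      have h3 : 0 ≤ 1 - c * wt ε b z := by nlinarith
      rw [Real.norm_of_nonneg h3]
      exact mul_le_of_le_one_left (norm_nonneg _) (by nlinarith)
    linarith
  · push Not at h
    have : disp ε t z = 0 := by
      unfold disp
      exact Finset.sum_eq_zero fun b hb => by rw [wt_zero hε (h b hb).le, zero_smul]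
    rw [this, smul_zero, sub_zero]
    exact hz

/-- the radial projection from a point of the ball -/
theorem exists_proj {n : ℕ} (hn : 0 < n) {l : ℝ} (hl : 0 < l) {y : E n} (hy : ‖y‖ < l) :
    ∃ ψ : {z : E n // z ≠ y} → Sph n, Continuous ψ ∧
      ∀ (x : Sph n) (h : l • (x : E n) ≠ y), ψ ⟨l • (x : E n), h⟩ = x := by
  have hne : ∀ x : Sph n, l • (x : E n) ≠ y := by
    intro x hx
    rw [← hx, norm_smul, norm_sph, mul_one, Real.norm_of_nonneg hl.le] at hy
    exact lt_irrefl _ hy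
  by_contra hcon
  have h1 := TCover.taskCover n hn {z : E n // z ≠ y} (fun x => ⟨l • (x : E n), hne x⟩)
    (fun ⟨r, hr, hr'⟩ => hcon ⟨r, hr, fun x _ => hr' x⟩) Subtype.val l hl continuous_subtype_val
    (fun x => rfl)
  obtain ⟨⟨z, hz⟩, hz'⟩ := h1 (mem_ball_zero_iff.2 hy)
  exact hz hz'

/-- covering with holes -/
theorem cover_holes {n : ℕ} (hn : 0 < n) {X : Type} [MetricSpace X] [CompactSpace X]
    (bd : Sph n → X) (hc : Continuous bd) {J : Type} [Finite J] (H : J → Set X)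
    (hH : ∀ j, IsCompact (H j)) (hd : ∀ j x, bd x ∉ H j)
    (hno : ¬ ∃ r : X → Sph n, Continuous r ∧ (∀ x, r (bd x) = x) ∧
      ∀ j, ∀ p ∈ H j, ∀ q ∈ H j, r p = r q)
    (Φ : X → E n) (hΦ : Continuous Φ) {l : ℝ} (hl : 0 < l) (hb : ∀ x, Φ (bd x) = l • (x : E n))
    (t : Finset (E n × ℝ)) (ht0 : ∀ b ∈ t, 0 ≤ b.2)
    (ht : ∀ b ∈ t, ∀ b' ∈ t, b ≠ b' → b.2 + b'.2 < dist b.1 b'.1)
    (hHt : ∀ j, ∃ b ∈ t, ∀ p ∈ H j, Φ p ∈ closedBall b.1 b.2) :
    ball (0 : E n) l ⊆ (⋃ b ∈ t, closedBall b.1 b.2) ∪ range Φ := by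
  intro y hy
  by_contra hcon
  rw [mem_union, not_or] at hcon
  obtain ⟨hy1, hy2⟩ := hcon
  have hy3 : ∀ b ∈ t, b.2 < dist y b.1 := by
    intro b hb
    by_contra h
    exact hy1 (mem_biUnion hb (mem_closedBall.2 (not_lt.1 h)))
  have hyl : ‖y‖ < l := mem_ball_zero_iff.1 hy
  -- the enlargement
  obtain ⟨ε, hε, he1, he2⟩ : ∃ ε : ℝ, 0 < ε ∧
      (∀ b ∈ t, ∀ b' ∈ t, b ≠ b' → b.2 + ε + (b'.2 + ε) < dist b.1 b'.1) ∧
      (∀ b ∈ t, b.2 + ε < dist y b.1) := by
    have h1 : ∀ᶠ ε : ℝ in 𝓝 0, ∀ b ∈ t, ∀ b' ∈ t, b ≠ b' →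
        b.2 + ε + (b'.2 + ε) < dist b.1 b'.1 := by
      rw [Finset.eventually_all]
      intro b hb
      rw [Finset.eventually_all]
      intro b' hb'
      by_cases hne : b = b'
      · exact Eventually.of_forall fun ε h => absurd hne h
      · have h2 : Tendsto (fun ε : ℝ => b.2 + ε + (b'.2 + ε)) (𝓝 0) (𝓝 (b.2 + 0 + (b'.2 + 0))) :=
          (Continuous.tendsto (by fun_prop) 0)
        have h3 := h2.eventually_lt_const (u := dist b.1 b'.1) (by
          have := ht b hb b' hb' hne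
          linarith)
        exact h3.mono fun ε h _ => h
    have h2 : ∀ᶠ ε : ℝ in 𝓝 0, ∀ b ∈ t, b.2 + ε < dist y b.1 := by
      rw [Finset.eventually_all]
      intro b hb
      have h2 : Tendsto (fun ε : ℝ => b.2 + ε) (𝓝 0) (𝓝 (b.2 + 0)) :=
        (Continuous.tendsto (by fun_prop) 0)
      exact h2.eventually_lt_const (by have := hy3 b hb; linarith)
    have h3 := (h1.and h2)
    have h4 : ∀ᶠ ε : ℝ in 𝓝[>] 0, (∀ b ∈ t, ∀ b' ∈ t, b ≠ b' →
        b.2 + ε + (b'.2 + ε) < dist b.1 b'.1) ∧ (∀ b ∈ t, b.2 + ε < dist y b.1) :=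
      h3.filter_mono nhdsWithin_le_nhds
    obtain ⟨ε, ⟨h5, h6⟩, h7⟩ := (h4.and self_mem_nhdsWithin).exists
    exact ⟨ε, h7, h5, h6⟩
  -- the cut-off
  have hr1 : IsClosed (range bd) := (isCompact_range hc).isClosed
  have hr2 : IsClosed (⋃ j, H j) := (isCompact_iUnion hH).isClosed
  have hdis : Disjoint (range bd) (⋃ j, H j) := by
    rw [Set.disjoint_left]
    rintro _ ⟨x, rfl⟩ h
    obtain ⟨j, hj⟩ := mem_iUnion.1 h
    exact hd j x hj
  obtain ⟨χ, hχ0, hχ1, hχ2⟩ := exists_continuous_zero_one_of_isClosed hr1 hr2 hdis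
  have hne : ∀ q, Φ q - χ q • disp ε t (Φ q) ≠ y := by
    intro q
    refine collapse_ne hε he1 he2 (fun h => hy2 ⟨q, h⟩) (hχ2 q).1 (hχ2 q).2
  obtain ⟨ψ, hψ, hψ'⟩ := exists_proj hn hl hyl
  have hcont : Continuous fun q => (⟨Φ q - χ q • disp ε t (Φ q), hne q⟩ : {z : E n // z ≠ y}) :=
    Continuous.subtype_mk (hΦ.sub (χ.continuous.smul ((disp_cont ε t).comp hΦ))) _
  apply hno
  refine ⟨fun q => ψ ⟨Φ q - χ q • disp ε t (Φ q), hne q⟩, hψ.comp hcont, fun x => ?_,
    fun j p hp q hq => ?_⟩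
  · have h1 : Φ (bd x) - χ (bd x) • disp ε t (Φ (bd x)) = l • (x : E n) := by
      have h2 : χ (bd x) = 0 := hχ0 (mem_range_self x)
      rw [h2, zero_smul, sub_zero, hb]
    have h3 := hne (bd x)
    have h4 : (⟨Φ (bd x) - χ (bd x) • disp ε t (Φ (bd x)), hne (bd x)⟩ : {z : E n // z ≠ y}) =
        ⟨l • (x : E n), by rw [← h1]; exact h3⟩ := Subtype.ext h1
    change ψ ⟨Φ (bd x) - χ (bd x) • disp ε t (Φ (bd x)), hne (bd x)⟩ = x
    rw [h4]
    exact hψ' x _
  · obtain ⟨b, hb, hbH⟩ := hHt j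
    have key : ∀ p ∈ H j, Φ p - χ p • disp ε t (Φ p) = b.1 := by
      intro p hp
      have h2 : χ p = 1 := hχ1 (mem_iUnion.2 ⟨j, hp⟩)
      rw [h2, one_smul]
      exact collapse_mem hε he1 hb (ht0 b hb) (hbH p hp)
    have h3 : (⟨Φ p - χ p • disp ε t (Φ p), hne p⟩ : {z : E n // z ≠ y}) =
        ⟨Φ q - χ q • disp ε t (Φ q), hne q⟩ := Subtype.ext ((key p hp).trans (key q hq).symm)
    change ψ ⟨Φ p - χ p • disp ε t (Φ p), hne p⟩ = ψ ⟨Φ q - χ q • disp ε t (Φ q), hne q⟩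
    rw [h3]

theorem sum_pow_le {ι : Type} (s : Finset ι) (f : ι → ℝ) (hf : ∀ i ∈ s, 0 ≤ f i) {n : ℕ}
    (hn : n ≠ 0) : ∑ i ∈ s, f i ^ n ≤ (∑ i ∈ s, f i) ^ n := by
  classical
  induction s using Finset.induction_on with
  | empty => simp [hn]
  | insert a s ha ih =>
    rw [Finset.sum_insert ha, Finset.sum_insert ha]
    have h1 := ih fun i hi => hf i (Finset.mem_insert_of_mem hi)
    have h2 : 0 ≤ ∑ i ∈ s, f i := Finset.sum_nonneg fun i hi => hf i (Finset.mem_insert_of_mem hi)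
    have h3 := pow_add_pow_le (hf a (Finset.mem_insert_self _ _)) h2 hn
    linarith

/-- the volume of a finite union of balls -/
theorem vol_balls {n : ℕ} (hn : n ≠ 0) (t : Finset (E n × ℝ)) (ht0 : ∀ b ∈ t, 0 ≤ b.2) {R : ℝ}
    (hR : ∑ b ∈ t, b.2 ≤ R) :
    volume (⋃ b ∈ t, closedBall b.1 b.2) ≤
      volume (ball (0 : E n) 1) * ENNReal.ofReal (R ^ n) := by
  have : Nonempty (Fin n) := ⟨⟨0, by omega⟩⟩
  calc volume (⋃ b ∈ t, closedBall b.1 b.2) ≤ ∑ b ∈ t, volume (closedBall b.1 b.2) :=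
        measure_biUnion_finset_le _ _
    _ = ∑ b ∈ t, ENNReal.ofReal (b.2 ^ n) * volume (ball (0 : E n) 1) := by
        refine Finset.sum_congr rfl fun b hb => ?_
        rw [Measure.addHaar_closedBall _ _ (ht0 b hb)]
        simp
    _ = volume (ball (0 : E n) 1) * ENNReal.ofReal (∑ b ∈ t, b.2 ^ n) := by
        rw [← Finset.sum_mul, mul_comm, ENNReal.ofReal_sum_of_nonneg]
        intro b hb
        exact pow_nonneg (ht0 b hb) n
    _ ≤ _ := by
        gcongr
        exact (sum_pow_le t (fun b => b.2) ht0 hn).trans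
          (pow_le_pow_left₀ (Finset.sum_nonneg ht0) hR n)

end Pool.Agent.Q146.FVD
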