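import Pool.Agent.Q146.FVC.Main

/-!
# The map defined by the extended distance functions, without the boundary condition
-/

set_option autoImplicit false

open MeasureTheory Metric Set Filter Topology InnerProductGeometry

namespace Pool.Agent.Q146.FVD

open Pool.Agent.H241R3.FV

theorem fa {n : ℕ} (hn : 0 < n) {M : Type} [MetricSpace M] (bd : Sph n → M) (x : Sph n)
    (q q' : M) : |ext bd x q - ext bd x q'| ≤ dist q q' := by
  rw [abs_le]
  have h1 := TExt.ext_le_add hn bd x x q' q (dist q q') (fun p => by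
    have := dist_triangle q' q (bd p)
    rw [dist_comm q' q] at this
    linarith)
  have h2 := TExt.ext_le_add hn bd x x q q' (dist q q') (fun p => by
    have := dist_triangle q q' (bd p)
    linarith)
  constructor <;> linarith

theorem fb {n : ℕ} (hn : 0 < n) {M : Type} [MetricSpace M] (bd : Sph n → M) (x x' : Sph n)
    (q : M) : |ext bd x q - ext bd x' q| ≤ angle (x : E n) (x' : E n) := by
  rw [abs_le]
  have h1 := TExt.ext_le_add hn bd x' x q q (angle (x : E n) (x' : E n)) (fun p => by
    have := angle_le_angle_add_angle (x' : E n) (x : E n) (p : E n)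
    rw [angle_comm (x' : E n) (x : E n)] at this
    linarith)
  have h2 := TExt.ext_le_add hn bd x x' q q (angle (x : E n) (x' : E n)) (fun p => by
    have := angle_le_angle_add_angle (x : E n) (x' : E n) (p : E n)
    linarith)
  constructor <;> linarith

/-- the boundary values of the extensions -/
theorem ext_bd {n : ℕ} (hn : 0 < n) {M : Type} [MetricSpace M] (bd : Sph n → M) {η : ℝ}
    (h : ∀ x y : Sph n, angle (x : E n) (y : E n) - η ≤ dist (bd x) (bd y)) (x p : Sph n) :
    angle (x : E n) (p : E n) - η ≤ ext bd x (bd p) ∧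
      ext bd x (bd p) ≤ angle (x : E n) (p : E n) := by
  constructor
  · have := TExt.sph_nonempty hn
    unfold Pool.Agent.H241R3.FV.ext
    apply le_ciInf
    intro p'
    have h1 := angle_le_angle_add_angle (x : E n) (p' : E n) (p : E n)
    have h2 := h p' p
    rw [dist_comm] at h2
    linarith
  · have h := ciInf_le (TExt.bdd bd x (bd p)) p
    rw [dist_self, add_zero] at h
    exact h

/-- the image of a chart -/
theorem chart_image {d : ℕ} (hd : 1 ≤ d) {M : Type} [MetricSpace M] (bd : Sph (d + 1) → M)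
    (C : RChart (d + 1) M) :
    volume ((fun p => Phi bd (C.map p)) '' C.D) ≤
      ENNReal.ofReal (om (d + 1) ^ (d + 1)) *
        ∫⁻ p in C.D, ENNReal.ofReal √(C.G p).det := by
  classical
  have fa := fa (Nat.succ_pos d) bd
  have fb := fb (Nat.succ_pos d) bd
  obtain ⟨om_pos, lam_pos, sig_univ, ratio⟩ := TConst.taskConst TPolar.taskPolar d hd
  have hsig0 : 0 ≤ (sig (d + 1)).real univ := measureReal_nonneg
  let Φ : M → E (d + 1) := Phi bd
  have hlip : ∀ q q', ‖Φ q - Φ q'‖ ≤ dist q q' * (sig (d + 1)).real univ := phi_lip bd fa fb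
  let Ψ : E (d + 1) → E (d + 1) := fun p => Φ (C.map p)
  have hloc := TLoc.taskLoc (d + 1) M C
  have hdiff := TDiff.taskDiff (d + 1) (Nat.succ_pos d) C.U C.isOpen_U C.G
    (fun x p => ext bd x (C.map p)) (by
      intro p hp ε hε
      obtain ⟨r, hr, hr2, hr3⟩ := hloc p hp ε hε
      exact ⟨r, hr, hr2, fun x y hy z hz => (fa x _ _).trans (hr3 y hy z hz)⟩)
    (fun x x' p _ => fb x x' _)
  -- the derivative of Ψ
  let good : E (d + 1) → (E (d + 1) →L[ℝ] E (d + 1)) → Prop := fun p L =>
    HasFDerivAt Ψ L p ∧ |L.det| ≤ om (d + 1) ^ (d + 1) * √(C.G p).det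
  have hgood : ∀ᵐ p ∂(volume : Measure (E (d + 1))), p ∈ C.U → ∃ L, good p L := by
    filter_upwards [hdiff] with p hp hpU
    obtain ⟨L, hL1, hL2⟩ := hp hpU
    refine ⟨-L, ?_, ?_⟩
    · exact hL1.neg
    · have e1 : |(-L).det| = |L.det| := by
        have h1 : (-L).det = (-1) ^ (d + 1) * L.det := by
          have h2 : (-L : E (d + 1) →L[ℝ] E (d + 1)) = (-1 : ℝ) • L := by
            ext v k
            simp
          show LinearMap.det ((-L : E (d + 1) →L[ℝ] E (d + 1)) : E (d + 1) →ₗ[ℝ] E (d + 1)) = _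
          rw [h2]
          show LinearMap.det ((-1 : ℝ) • (L : E (d + 1) →ₗ[ℝ] E (d + 1))) = _
          rw [LinearMap.det_smul]
          simp
        rw [h1, abs_mul, abs_pow, abs_neg, abs_one, one_pow, one_mul]
      rw [e1, det_mat]
      refine TMat.taskMat (d + 1) (Nat.succ_pos d) (mat L) (C.G p) (C.pos_G p hpU) (om (d + 1))
        om_pos.le ?_
      intro A hA
      refine (hL2 A).trans ?_
      have h1 : (fun x : Sph (d + 1) => gnorm (C.G p) (act A (x : E (d + 1)))) =
          fun _ => (1 : ℝ) := by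
        funext x
        exact gnorm_act _ _ hA x
      rw [h1, integral_const, smul_eq_mul, mul_one, sig_univ]
  let bad : Set (E (d + 1)) := {p | ¬ (p ∈ C.U → ∃ L, good p L)}
  have hbad : volume bad = 0 := hgood
  let N : Set (E (d + 1)) := toMeasurable volume bad
  have hN0 : volume N = 0 := by rw [measure_toMeasurable, hbad]
  have hNm : MeasurableSet N := measurableSet_toMeasurable _ _
  have hbN : bad ⊆ N := subset_toMeasurable _ _
  have hex : ∀ p ∈ C.D \ N, ∃ L, good p L := by
    intro p hp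
    by_contra hcon
    apply hp.2
    apply hbN
    show ¬ (p ∈ C.U → ∃ L, good p L)
    intro h
    exact hcon (h (C.D_sub hp.1))
  let f' : E (d + 1) → (E (d + 1) →L[ℝ] E (d + 1)) := fun p =>
    if h : ∃ L, good p L then h.choose else 0
  have hf' : ∀ p ∈ C.D \ N, good p (f' p) := by
    intro p hp
    have h := hex p hp
    simp only [f', dif_pos h]
    exact h.choose_spec
  have step1 : volume (Ψ '' (C.D \ N)) ≤
      ∫⁻ p in C.D \ N, ENNReal.ofReal |(f' p).det| :=
    addHaar_image_le_lintegral_abs_det_fderiv volume (C.meas_D.diff hNm)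
      (fun p hp => (hf' p hp).1.hasFDerivWithinAt)
  have step2 : ∫⁻ p in C.D \ N, ENNReal.ofReal |(f' p).det| ≤
      ENNReal.ofReal (om (d + 1) ^ (d + 1)) *
        ∫⁻ p in C.D, ENNReal.ofReal √(C.G p).det := by
    rw [← lintegral_const_mul' _ _ ENNReal.ofReal_ne_top]
    calc ∫⁻ p in C.D \ N, ENNReal.ofReal |(f' p).det|
        ≤ ∫⁻ p in C.D \ N, ENNReal.ofReal (om (d + 1) ^ (d + 1)) *
            ENNReal.ofReal √(C.G p).det := by
          refine setLIntegral_mono' (C.meas_D.diff hNm) fun p hp => ?_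
          rw [← ENNReal.ofReal_mul (by positivity)]
          exact ENNReal.ofReal_le_ofReal (hf' p hp).2
      _ ≤ _ := lintegral_mono_set sdiff_subset
  have step3 : volume (Ψ '' (C.D ∩ N)) = 0 := by
    refine TNull.taskNull (d + 1) C.U Ψ ?_ _ (fun p hp => C.D_sub hp.1) ?_
    · intro p hp
      obtain ⟨r, hr, hr2, hr3⟩ := hloc p hp 1 one_pos
      refine ⟨r, hr, (√(∑ i, ∑ j, |C.G p i j|) + 1) * (sig (d + 1)).real univ, ?_⟩
      intro y hy z hz
      calc ‖Ψ y - Ψ z‖ ≤ dist (C.map y) (C.map z) * (sig (d + 1)).real univ := hlip _ _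
        _ ≤ (gnorm (C.G p) (y - z) + 1 * ‖y - z‖) * (sig (d + 1)).real univ := by
            gcongr
            exact hr3 y hy z hz
        _ ≤ (√(∑ i, ∑ j, |C.G p i j|) * ‖y - z‖ + 1 * ‖y - z‖) *
              (sig (d + 1)).real univ := by
            gcongr
            exact gnorm_le _ _
        _ = _ := by ring
    · exact measure_mono_null inter_subset_right hN0
  calc volume (Ψ '' C.D) ≤ volume (Ψ '' (C.D \ N) ∪ Ψ '' (C.D ∩ N)) := by
        apply measure_mono
        rw [← image_union, sdiff_union_inter]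
    _ ≤ volume (Ψ '' (C.D \ N)) + volume (Ψ '' (C.D ∩ N)) := measure_union_le _ _
    _ = volume (Ψ '' (C.D \ N)) := by rw [step3, add_zero]
    _ ≤ _ := step1.trans step2

/-! ### The vectors `∫ h x` -/

theorem int_half {d : ℕ} (hd : 1 ≤ d) (p : Sph (d + 1)) {s : ℝ} (hs : s = 1 ∨ s = -1) :
    ∫ x : Sph (d + 1), max (s * Real.cos (angle (x : E (d + 1)) (p : E (d + 1)))) 0
      ∂(sig (d + 1)) = om d := by
  obtain ⟨R, hR⟩ := TBdry.exists_rot p
  have hn : 0 < d + 1 := Nat.succ_pos d
  have h2 : ∫ x : Sph (d + 1), (fun t : ℝ => max (s * Real.cos t) 0)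
      (angle (x : E (d + 1)) (p : E (d + 1))) ∂(sig (d + 1)) =
      ∫ x : Sph (d + 1), (fun t : ℝ => max (s * Real.cos t) 0)
        (angle (x : E (d + 1)) (EuclideanSpace.single 0 1)) ∂(sig (d + 1)) := by
    rw [← TBdry.int_rot hn TInv.taskInv R (fun x : Sph (d + 1) =>
      (fun t : ℝ => max (s * Real.cos t) 0) (angle (x : E (d + 1)) (EuclideanSpace.single 0 1)))]
    congr 1
    ext x : 1
    have h3 : angle ((rot R x : Sph (d + 1)) : E (d + 1)) (EuclideanSpace.single 0 1) =
        angle (x : E (d + 1)) (p : E (d + 1)) := by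
      rw [← TBdry.angle_rot R x p, ← hR]
      rfl
    rw [h3]
  change ∫ x : Sph (d + 1), (fun t : ℝ => max (s * Real.cos t) 0)
      (angle (x : E (d + 1)) (p : E (d + 1))) ∂(sig (d + 1)) = _
  rw [h2, TPolar.taskPolar d hd (fun t => max (s * Real.cos t) 0) (by fun_prop)]
  have hd0 : (d : ℝ) ≠ 0 := by
    have : d ≠ 0 := by omega
    exact_mod_cast this
  have key : ∫ t in (0 : ℝ)..Real.pi, max (s * Real.cos t) 0 * Real.sin t ^ (d - 1) = 1 / d := by
    have hd1 : d - 1 + 1 = d := by omega
    have prim : ∀ t : ℝ, HasDerivAt (fun t : ℝ => Real.sin t ^ d / d)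
        (Real.cos t * Real.sin t ^ (d - 1)) t := by
      intro t
      have h3 := ((Real.hasDerivAt_sin t).pow d).div_const (d : ℝ)
      refine h3.congr_deriv ?_
      field_simp
    have hcont : ∀ a b : ℝ, IntervalIntegrable
        (fun t => max (s * Real.cos t) 0 * Real.sin t ^ (d - 1)) volume a b := fun a b =>
      Continuous.intervalIntegrable (by fun_prop) a b
    rw [← intervalIntegral.integral_add_adjacent_intervals (hcont 0 (Real.pi / 2))
      (hcont (Real.pi / 2) Real.pi)]
    have i1 : ∫ t in (0 : ℝ)..(Real.pi / 2), Real.cos t * Real.sin t ^ (d - 1) = 1 / d := by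
      rw [intervalIntegral.integral_eq_sub_of_hasDerivAt (fun t _ => prim t)
        (Continuous.intervalIntegrable (by fun_prop) _ _)]
      have : d ≠ 0 := by omega
      simp [this]
    have i2 : ∫ t in (Real.pi / 2)..Real.pi, Real.cos t * Real.sin t ^ (d - 1) = -(1 / d) := by
      rw [intervalIntegral.integral_eq_sub_of_hasDerivAt (fun t _ => prim t)
        (Continuous.intervalIntegrable (by fun_prop) _ _)]
      have : d ≠ 0 := by omega
      simp [this]
    rcases hs with rfl | rfl
    · have e1 : ∫ t in (0 : ℝ)..(Real.pi / 2), max (1 * Real.cos t) 0 * Real.sin t ^ (d - 1) =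
          ∫ t in (0 : ℝ)..(Real.pi / 2), Real.cos t * Real.sin t ^ (d - 1) := by
        refine intervalIntegral.integral_congr fun t ht => ?_
        rw [uIcc_of_le (by positivity)] at ht
        have : 0 ≤ Real.cos t := Real.cos_nonneg_of_mem_Icc ⟨by linarith [ht.1, Real.pi_pos], ht.2⟩
        simp only [one_mul]
        rw [max_eq_left this]
      have e2 : ∫ t in (Real.pi / 2)..Real.pi, max (1 * Real.cos t) 0 * Real.sin t ^ (d - 1) =
          ∫ _ in (Real.pi / 2)..Real.pi, (0 : ℝ) := by
        refine intervalIntegral.integral_congr fun t ht => ?_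
        rw [uIcc_of_le (by linarith [Real.pi_pos])] at ht
        have : Real.cos t ≤ 0 := Real.cos_nonpos_of_pi_div_two_le_of_le ht.1
          (by linarith [ht.2, Real.pi_pos])
        simp only [one_mul]
        rw [max_eq_right this, zero_mul]
      rw [e1, e2, i1]
      simp
    · have e1 : ∫ t in (0 : ℝ)..(Real.pi / 2), max (-1 * Real.cos t) 0 * Real.sin t ^ (d - 1) =
          ∫ _ in (0 : ℝ)..(Real.pi / 2), (0 : ℝ) := by
        refine intervalIntegral.integral_congr fun t ht => ?_
        rw [uIcc_of_le (by positivity)] at ht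
        have : 0 ≤ Real.cos t := Real.cos_nonneg_of_mem_Icc ⟨by linarith [ht.1, Real.pi_pos], ht.2⟩
        rw [max_eq_right (by linarith), zero_mul]
      have e2 : ∫ t in (Real.pi / 2)..Real.pi, max (-1 * Real.cos t) 0 * Real.sin t ^ (d - 1) =
          ∫ t in (Real.pi / 2)..Real.pi, -(Real.cos t * Real.sin t ^ (d - 1)) := by
        refine intervalIntegral.integral_congr fun t ht => ?_
        rw [uIcc_of_le (by linarith [Real.pi_pos])] at ht
        have : Real.cos t ≤ 0 := Real.cos_nonpos_of_pi_div_two_le_of_le ht.1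
          (by linarith [ht.2, Real.pi_pos])
        rw [max_eq_left (by linarith)]
        ring
      rw [e1, e2, intervalIntegral.integral_neg, i2]
      simp
  rw [key]
  field_simp

/-- `|∫ h x| ≤ (b - a) om d` if `a ≤ h ≤ b` -/
theorem vec_bound {d : ℕ} (hd : 1 ≤ d) (h : Sph (d + 1) → ℝ) (hc : Continuous h) {a b : ℝ}
    (ha : ∀ x, a ≤ h x) (hb : ∀ x, h x ≤ b) :
    ‖∫ x : Sph (d + 1), h x • (x : E (d + 1)) ∂(sig (d + 1))‖ ≤ (b - a) * om d := by
  set v := ∫ x : Sph (d + 1), h x • (x : E (d + 1)) ∂(sig (d + 1)) with hv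
  have hab : a ≤ b := by
    obtain ⟨x⟩ := TExt.sph_nonempty (Nat.succ_pos d)
    exact (ha x).trans (hb x)
  have hom : 0 < om d := TConst.om_pos d
  by_cases h0 : v = 0
  · rw [h0, norm_zero]
    exact mul_nonneg (by linarith) hom.le
  have hv0 : 0 < ‖v‖ := norm_pos_iff.2 h0
  let u : Sph (d + 1) := ⟨‖v‖⁻¹ • v, by
    rw [mem_sphere_iff_norm, sub_zero, norm_smul, norm_inv, norm_norm]
    exact inv_mul_cancel₀ hv0.ne'⟩
  have hint : Integrable (fun x : Sph (d + 1) => h x • (x : E (d + 1))) (sig (d + 1)) :=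
    TBdry.integrable_of_cont _ (hc.smul continuous_subtype_val)
  have h1 : inner ℝ (u : E (d + 1)) v = ‖v‖ := by
    change inner ℝ (‖v‖⁻¹ • v) v = ‖v‖
    rw [inner_smul_left, real_inner_self_eq_norm_sq]
    simp
    field_simp
  have hcos : ∀ x : Sph (d + 1), Real.cos (angle (x : E (d + 1)) (u : E (d + 1))) =
      inner ℝ (u : E (d + 1)) (x : E (d + 1)) := by
    intro x
    rw [InnerProductGeometry.cos_angle, TBdry.norm_sph, TBdry.norm_sph, mul_one, div_one,
      real_inner_comm]
  have h2 : ‖v‖ = ∫ x : Sph (d + 1), h x * Real.cos (angle (x : E (d + 1)) (u : E (d + 1)))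
      ∂(sig (d + 1)) := by
    rw [← h1, hv, ← integral_inner hint]
    congr 1
    ext x : 1
    rw [inner_smul_right, ← hcos]
  have hang := TBdry.cont_angle u
  have c1 : Continuous fun x : Sph (d + 1) =>
      max (1 * Real.cos (angle (x : E (d + 1)) (u : E (d + 1)))) 0 := by
    exact (continuous_const.mul (Real.continuous_cos.comp hang)).max continuous_const
  have c2 : Continuous fun x : Sph (d + 1) =>
      max (-1 * Real.cos (angle (x : E (d + 1)) (u : E (d + 1)))) 0 := by
    exact (continuous_const.mul (Real.continuous_cos.comp hang)).max continuous_const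
  have i1 := (TBdry.integrable_of_cont _ c1).const_mul b
  have i2 := (TBdry.integrable_of_cont _ c2).const_mul a
  calc ‖v‖ = _ := h2
    _ ≤ ∫ x : Sph (d + 1),
        (b * max (1 * Real.cos (angle (x : E (d + 1)) (u : E (d + 1)))) 0 -
          a * max (-1 * Real.cos (angle (x : E (d + 1)) (u : E (d + 1)))) 0) ∂(sig (d + 1)) := by
        refine integral_mono (TBdry.integrable_of_cont _
          (hc.mul (Real.continuous_cos.comp hang))) (i1.sub i2) fun x => ?_
        change h x * Real.cos (angle (x : E (d + 1)) (u : E (d + 1))) ≤ _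
        set c := Real.cos (angle (x : E (d + 1)) (u : E (d + 1)))
        rcases le_total 0 c with hc0 | hc0
        · rw [max_eq_left (by linarith : (0 : ℝ) ≤ 1 * c),
            max_eq_right (by linarith : -1 * c ≤ 0)]
          have := mul_le_mul_of_nonneg_right (hb x) hc0
          linarith
        · rw [max_eq_right (by linarith : 1 * c ≤ 0),
            max_eq_left (by linarith : (0 : ℝ) ≤ -1 * c)]
          have := mul_le_mul_of_nonpos_right (ha x) hc0
          linarith
    _ = b * om d - a * om d := by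
        rw [integral_sub i1 i2, integral_const_mul, integral_const_mul,
          int_half hd u (Or.inl rfl), int_half hd u (Or.inr rfl)]
    _ = _ := by ring

theorem ext_int {n : ℕ} (hn : 0 < n) {M : Type} [MetricSpace M] (bd : Sph n → M) (q : M) :
    Integrable (fun x : Sph n => ext bd x q • (x : E n)) (sig n) :=
  TBdry.integrable_of_cont _
    ((cont_of_angle _ (fun x x' => fb hn bd x x' q)).smul continuous_subtype_val)

/-- the Lipschitz constant of `Phi` -/
theorem phi_lip2 {d : ℕ} (hd : 1 ≤ d) {M : Type} [MetricSpace M] (bd : Sph (d + 1) → M)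
    (q q' : M) : ‖Phi bd q - Phi bd q'‖ ≤ 2 * om d * dist q q' := by
  have hn := Nat.succ_pos d
  have h1 : Phi bd q - Phi bd q' =
      ∫ x : Sph (d + 1), (ext bd x q' - ext bd x q) • (x : E (d + 1)) ∂(sig (d + 1)) := by
    unfold Phi
    rw [sub_neg_eq_add, neg_add_eq_sub, ← integral_sub (ext_int hn bd q') (ext_int hn bd q)]
    congr 1
    ext1 x
    rw [sub_smul]
  rw [h1]
  refine (vec_bound hd _ ((cont_of_angle _ (fun x x' => fb hn bd x x' q')).sub
    (cont_of_angle _ (fun x x' => fb hn bd x x' q))) (a := -dist q q') (b := dist q q')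
    (fun x => ?_) (fun x => ?_)).trans (le_of_eq (by ring))
  · have := (abs_le.1 (fa hn bd x q' q)).1
    rw [dist_comm] at this
    exact this
  · have := (abs_le.1 (fa hn bd x q' q)).2
    rw [dist_comm] at this
    exact this

theorem phi_cont {d : ℕ} (hd : 1 ≤ d) {M : Type} [MetricSpace M] (bd : Sph (d + 1) → M) :
    Continuous (Phi bd) := by
  have hom := TConst.om_pos d
  have : LipschitzWith (Real.toNNReal (2 * om d)) (Phi bd) := by
    refine LipschitzWith.of_dist_le_mul fun q q' => ?_
    rw [dist_eq_norm, Real.coe_toNNReal _ (by positivity)]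
    exact phi_lip2 hd bd q q'
  exact this.continuous

/-- the boundary values of `Phi` -/
theorem phi_bd {d : ℕ} (hd : 1 ≤ d) {M : Type} [MetricSpace M] (bd : Sph (d + 1) → M) {η : ℝ}
    (h : ∀ x y : Sph (d + 1), angle (x : E (d + 1)) (y : E (d + 1)) - η ≤ dist (bd x) (bd y))
    (p : Sph (d + 1)) :
    ‖Phi bd (bd p) - lam (d + 1) • (p : E (d + 1))‖ ≤ η * om d := by
  have hn := Nat.succ_pos d
  have hb := TBdry.taskBdry TInv.taskInv TPolar.taskPolar d hd p
  have hia : Integrable (fun x : Sph (d + 1) =>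
      angle (x : E (d + 1)) (p : E (d + 1)) • (x : E (d + 1))) (sig (d + 1)) :=
    TBdry.integrable_of_cont _ ((TBdry.cont_angle p).smul continuous_subtype_val)
  have h1 : Phi bd (bd p) - lam (d + 1) • (p : E (d + 1)) =
      ∫ x : Sph (d + 1), (angle (x : E (d + 1)) (p : E (d + 1)) - ext bd x (bd p)) •
        (x : E (d + 1)) ∂(sig (d + 1)) := by
    unfold Phi
    rw [neg_smul] at hb
    have e : ∫ x : Sph (d + 1), (angle (x : E (d + 1)) (p : E (d + 1)) - ext bd x (bd p)) •
        (x : E (d + 1)) ∂(sig (d + 1)) =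
        ∫ x : Sph (d + 1), angle (x : E (d + 1)) (p : E (d + 1)) • (x : E (d + 1))
          ∂(sig (d + 1)) -
        ∫ x : Sph (d + 1), ext bd x (bd p) • (x : E (d + 1)) ∂(sig (d + 1)) := by
      rw [← integral_sub hia (ext_int hn bd (bd p))]
      congr 1
      ext1 x
      rw [sub_smul]
    rw [e, hb]
    abel
  rw [h1]
  refine (vec_bound hd _ ((TBdry.cont_angle p).sub
    (cont_of_angle _ (fun x x' => fb hn bd x x' (bd p)))) (a := 0) (b := η)
    (fun x => ?_) (fun x => ?_)).trans (le_of_eq (by ring))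
  · have := (ext_bd hn bd h x p).2
    change 0 ≤ angle (x : E (d + 1)) (p : E (d + 1)) - ext bd x (bd p)
    linarith
  · have := (ext_bd hn bd h x p).1
    change angle (x : E (d + 1)) (p : E (d + 1)) - ext bd x (bd p) ≤ η
    linarith

theorem lam_eq {d : ℕ} : lam (d + 1) = om d * ∫ t in (0 : ℝ)..Real.pi, Real.sin t ^ d := by
  unfold lam
  simp only [Nat.add_sub_cancel]

theorem om_succ {d : ℕ} (hd : 1 ≤ d) :
    om (d + 1) = om d * ∫ t in (0 : ℝ)..Real.pi, Real.sin t ^ (d + 1) := by
  obtain ⟨h1, h2, -, h3⟩ := TConst.taskConst TPolar.taskPolar d hd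
  rw [lam_eq] at h3 h2
  have hI1 : 0 < ∫ t in (0 : ℝ)..Real.pi, Real.sin t ^ d := integral_sin_pow_pos _
  have hI2 : 0 < ∫ t in (0 : ℝ)..Real.pi, Real.sin t ^ (d + 1) := integral_sin_pow_pos _
  rw [div_eq_div_iff h1.ne' hI2.ne'] at h3
  have h4 : (∫ t in (0 : ℝ)..Real.pi, Real.sin t ^ d) * om (d + 1) =
      (∫ t in (0 : ℝ)..Real.pi, Real.sin t ^ d) *
        (om d * ∫ t in (0 : ℝ)..Real.pi, Real.sin t ^ (d + 1)) := by
    rw [← h3]; ring
  exact mul_left_cancel₀ hI1.ne' h4

end Pool.Agent.Q146.FVD
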