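import Pool.Agent.Q146.FVD.Base

/-!
# Covering of a ball by maps which are almost the multiplication by `l` on the boundary
-/

set_option autoImplicit false

open MeasureTheory Metric Set Filter Topology InnerProductGeometry

namespace Pool.Agent.Q146.FVD

open Pool.Agent.H241R3.FV Pool.Agent.Q146.FVC

/-- the extension of the boundary coordinate -/
theorem exists_Y {n : ℕ} {M : Type} [MetricSpace M] [CompactSpace M] (bd : Sph n → M)
    (hc : Continuous bd) (hi : Function.Injective bd) :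
    ∃ Y : M → E n, Continuous Y ∧ ∀ x, Y (bd x) = (x : E n) := by
  have he : IsClosedEmbedding bd := hc.isClosedEmbedding hi
  let f : C(Sph n, E n) := ⟨fun x => (x : E n), continuous_subtype_val⟩
  obtain ⟨g, hg⟩ := ContinuousMap.exists_extension he f
  refine ⟨g, g.continuous, fun x => ?_⟩
  have := congrArg (fun F : C(Sph n, E n) => F x) hg
  exact this

theorem cover_almost {n : ℕ} (hn : 0 < n) {M : Type} [MetricSpace M] [CompactSpace M]
    (bd : Sph n → M) (hc : Continuous bd) (hi : Function.Injective bd)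
    (hno : ¬ ∃ r : M → Sph n, Continuous r ∧ ∀ x, r (bd x) = x) (Φ : M → E n)
    (hΦ : Continuous Φ) {l η : ℝ} (hl : 0 < l) (hη : ∀ x, ‖Φ (bd x) - l • (x : E n)‖ ≤ η) :
    ball (0 : E n) (l - η) ⊆ range Φ := by
  intro y hy
  have hy1 : ‖y‖ < l - η := by simpa using hy
  by_contra hcon
  obtain ⟨Y, hY, hYb⟩ := exists_Y bd hc hi
  have hη0 : 0 ≤ η := by
    obtain ⟨x⟩ := TExt.sph_nonempty hn
    exact (norm_nonneg _).trans (hη x)
  set ε : ℝ := l - η - ‖y‖ with hε
  have hε0 : 0 < ε := by linarith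
  let g : M → E n := fun q => l • Y q - Φ q
  have hg : Continuous g := (hY.const_smul l).sub hΦ
  let a : M → ℝ := fun q => max 0 (‖g q‖ - η) + max 0 (l - ‖l • Y q‖)
  have hac : Continuous a :=
    (continuous_const.max (hg.norm.sub continuous_const)).add
      (continuous_const.max (continuous_const.sub (hY.const_smul l).norm))
  let ψ : M → ℝ := fun q => max 0 (1 - a q / ε)
  have hψ : Continuous ψ := continuous_const.max (continuous_const.sub (hac.div_const ε))
  have ha0 : ∀ q, 0 ≤ a q := fun q => add_nonneg (le_max_left _ _) (le_max_left _ _)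
  have hψ1 : ∀ q, ψ q ≤ 1 := fun q => max_le zero_le_one (by
    have : 0 ≤ a q / ε := div_nonneg (ha0 q) hε0.le
    linarith)
  have hψ0 : ∀ q, 0 ≤ ψ q := fun q => le_max_left _ _
  let Φ' : M → E n := fun q => Φ q + ψ q • g q
  have hΦ' : Continuous Φ' := hΦ.add (hψ.smul hg)
  have hb : ∀ x, Φ' (bd x) = l • (x : E n) := by
    intro x
    have h1 : a (bd x) = 0 := by
      have e1 : ‖g (bd x)‖ ≤ η := by
        change ‖l • Y (bd x) - Φ (bd x)‖ ≤ η
        rw [hYb, norm_sub_rev]
        exact hη x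
      have e2 : ‖l • Y (bd x)‖ = l := by
        rw [hYb, norm_smul, norm_sph, mul_one, Real.norm_of_nonneg hl.le]
      change max 0 (‖g (bd x)‖ - η) + max 0 (l - ‖l • Y (bd x)‖) = 0
      rw [max_eq_left (by linarith), max_eq_left (by linarith), add_zero]
    have h2 : ψ (bd x) = 1 := by
      change max 0 (1 - a (bd x) / ε) = 1
      rw [h1, zero_div, sub_zero, max_eq_right zero_le_one]
    change Φ (bd x) + ψ (bd x) • (l • Y (bd x) - Φ (bd x)) = _
    rw [h2, one_smul, hYb]
    abel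
  have hy2 : y ∈ ball (0 : E n) l := by
    rw [mem_ball_zero_iff]
    linarith
  obtain ⟨q, hq⟩ := TCover.taskCover n hn M bd hno Φ' l hl hΦ' hb hy2
  by_cases h0 : ψ q = 0
  · apply hcon
    refine ⟨q, ?_⟩
    have : Φ' q = Φ q := by
      change Φ q + ψ q • g q = Φ q
      rw [h0, zero_smul, add_zero]
    rw [← this, hq]
  · have h1 : 0 < 1 - a q / ε := by
      by_contra h
      exact h0 (max_eq_left (not_lt.1 h))
    have h2 : a q < ε := by
      have : a q / ε < 1 := by linarith
      rwa [div_lt_one hε0] at this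
    have h3 : ‖g q‖ - η + (l - ‖l • Y q‖) ≤ a q :=
      add_le_add (le_max_right _ _) (le_max_right _ _)
    have h4 : Φ' q = l • Y q - (1 - ψ q) • g q := by
      change Φ q + ψ q • g q = _
      have : l • Y q = g q + Φ q := by
        change l • Y q = l • Y q - Φ q + Φ q
        abel
      rw [this, sub_smul, one_smul]
      abel
    have h5 : ‖l • Y q‖ - ‖g q‖ ≤ ‖Φ' q‖ := by
      rw [h4]
      have h6 := norm_sub_norm_le (l • Y q) ((1 - ψ q) • g q)
      have h7 : ‖(1 - ψ q) • g q‖ ≤ ‖g q‖ := by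
        rw [norm_smul, Real.norm_of_nonneg (by linarith [hψ1 q])]
        have := hψ0 q
        exact mul_le_of_le_one_left (norm_nonneg _) (by linarith)
      linarith
    rw [hq] at h5
    linarith

/-- the bound for almost nonshortcutting fillings, compact case -/
theorem vol_almost {d : ℕ} (hd : 1 ≤ d) {M : Type} [MetricSpace M] [CompactSpace M]
    (S : Fill d M) (hc : Continuous S.bd) (hi : Function.Injective S.bd)
    (hno : S.NoRetraction) {η : ℝ}
    (hη1 : η ≤ ∫ t in (0 : ℝ)..Real.pi, Real.sin t ^ d)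
    (h : ∀ x y : Sph (d + 1),
      angle (x : E (d + 1)) (y : E (d + 1)) - η ≤ dist (S.bd x) (S.bd y)) :
    volume (ball (0 : E (d + 1)) 1) * ENNReal.ofReal
      ((((∫ t in (0 : ℝ)..Real.pi, Real.sin t ^ d) - η) /
        ∫ t in (0 : ℝ)..Real.pi, Real.sin t ^ (d + 1)) ^ (d + 1)) ≤ S.vol := by
  have hn := Nat.succ_pos d
  have om0 := TConst.om_pos d
  have om1 := TConst.om_pos (d + 1)
  set w := ∫ t in (0 : ℝ)..Real.pi, Real.sin t ^ d with hw
  set w' := ∫ t in (0 : ℝ)..Real.pi, Real.sin t ^ (d + 1) with hw'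
  have hw0 : 0 < w := integral_sin_pow_pos _
  have hw'0 : 0 < w' := integral_sin_pow_pos _
  have hlam : lam (d + 1) = om d * w := lam_eq
  have hom : om (d + 1) = om d * w' := om_succ hd
  have hl : 0 < lam (d + 1) := by rw [hlam]; positivity
  have hcov := cover_almost hn S.bd hc hi hno (Phi S.bd) (phi_cont hd S.bd) hl
    (phi_bd hd S.bd h)
  rw [show lam (d + 1) - η * om d = om d * (w - η) by rw [hlam]; ring] at hcov
  have hsub : ball (0 : E (d + 1)) (om d * (w - η)) ⊆
      ⋃ i, (fun p => Phi S.bd ((S.chart i).map p)) '' (S.chart i).D := by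
    intro y hy
    obtain ⟨q, rfl⟩ := hcov hy
    rcases S.cover q with ⟨x, rfl⟩ | ⟨i, p, hp, rfl⟩
    · exfalso
      rw [mem_ball_zero_iff] at hy
      have h1 := phi_bd hd S.bd h x
      have h2 := norm_sub_norm_le (lam (d + 1) • (x : E (d + 1))) (Phi S.bd (S.bd x))
      rw [norm_sub_rev, norm_smul, norm_sph, mul_one, Real.norm_of_nonneg hl.le] at h2
      have h3 : lam (d + 1) - η * om d = om d * (w - η) := by rw [hlam]; ring
      linarith
    · exact mem_iUnion.mpr ⟨i, ⟨p, hp, rfl⟩⟩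
  have := S.countable
  have htot : volume (ball (0 : E (d + 1)) (om d * (w - η))) ≤
      ENNReal.ofReal (om (d + 1) ^ (d + 1)) * S.vol := by
    calc volume (ball (0 : E (d + 1)) (om d * (w - η)))
        ≤ volume (⋃ i, (fun p => Phi S.bd ((S.chart i).map p)) '' (S.chart i).D) :=
          measure_mono hsub
      _ ≤ ∑' i, volume ((fun p => Phi S.bd ((S.chart i).map p)) '' (S.chart i).D) :=
          measure_iUnion_le _
      _ ≤ ∑' i, ENNReal.ofReal (om (d + 1) ^ (d + 1)) *
            ∫⁻ p in (S.chart i).D, ENNReal.ofReal √((S.chart i).G p).det :=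
          ENNReal.tsum_le_tsum fun i => chart_image hd S.bd (S.chart i)
      _ = _ := ENNReal.tsum_mul_left
  rw [Measure.addHaar_ball _ _ (mul_nonneg om0.le (by linarith))] at htot
  have hfin : Module.finrank ℝ (E (d + 1)) = d + 1 := by simp
  rw [hfin] at htot
  have hne : ENNReal.ofReal (om (d + 1) ^ (d + 1)) ≠ 0 := by
    rw [Ne, ENNReal.ofReal_eq_zero, not_le]
    positivity
  rw [← ENNReal.mul_le_mul_iff_right hne ENNReal.ofReal_ne_top]
  refine le_trans (le_of_eq ?_) htot
  rw [mul_comm (volume (ball (0 : E (d + 1)) 1)), ← mul_assoc, ← ENNReal.ofReal_mul (by positivity)]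
  congr 2
  rw [hom, div_pow, mul_pow, mul_pow]
  field_simp

/-- `bd` is `K`-Lipschitz for the angle -/
def AngleLip {d : ℕ} {M : Type} [MetricSpace M] (S : Fill d M) (K : ℝ) : Prop :=
  ∀ x y : Sph (d + 1), dist (S.bd x) (S.bd y) ≤ K * angle (x : E (d + 1)) (y : E (d + 1))

/-- the number `vol(B^(d+1)) ((∫ sin^d - η) / ∫ sin^(d+1))^(d+1)` -/
noncomputable def kapD (d : ℕ) (η : ℝ) : ENNReal :=
  volume (Metric.ball (0 : E (d + 1)) 1) * ENNReal.ofReal
    ((((∫ t in (0 : ℝ)..Real.pi, Real.sin t ^ d) - η) /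
      ∫ t in (0 : ℝ)..Real.pi, Real.sin t ^ (d + 1)) ^ (d + 1))

/-- `h` is `1`-Lipschitz, positive on the boundary, its sets `{h ≥ δ}`, `δ > 0`, are compact, and
`h (bd x) + h (bd y) ≥ angle x y` for `x, y ∈ P` -/
structure NearHeight {d : ℕ} {M : Type} [MetricSpace M] (S : Fill d M) (h : M → ℝ)
    (P : Set (Sph (d + 1))) : Prop where
  lip : LipschitzWith 1 h
  pos : ∀ x, 0 < h (S.bd x)
  cpt : ∀ δ : ℝ, 0 < δ → IsCompact {q | δ ≤ h q}
  sum : ∀ x ∈ P, ∀ y ∈ P,
    angle (x : E (d + 1)) (y : E (d + 1)) ≤ h (S.bd x) + h (S.bd y)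

/-- noncompact fillings with defect `η` -/
theorem vol_almost_near {d : ℕ} (hd : 1 ≤ d) {M : Type} [MetricSpace M]
    (S : Fill d M) (hc : Continuous S.bd) (hi : Function.Injective S.bd)
    (hno : S.NoRetraction) {η : ℝ}
    (hη1 : η ≤ ∫ t in (0 : ℝ)..Real.pi, Real.sin t ^ d)
    (h : ∀ x y : Sph (d + 1),
      angle (x : E (d + 1)) (y : E (d + 1)) - η ≤ dist (S.bd x) (S.bd y))
    {f : M → ℝ} (lip : LipschitzWith 1 f) (pos : ∀ x, 0 < f (S.bd x))
    (cpt : ∀ δ : ℝ, 0 < δ → IsCompact {q | δ ≤ f q})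
    (sum : ∀ x y : Sph (d + 1),
      angle (x : E (d + 1)) (y : E (d + 1)) - η ≤ f (S.bd x) + f (S.bd y)) :
    kapD d η ≤ posVol S f := by
  have key := @vol_almost d hd (Col f) (colMetric lip) (col_compact lip cpt) (colFill lip S) ?_ ?_
    ?_ η hη1 ?_
  · rw [vol_colFill] at key
    exact key
  · letI := colMetric lip
    exact (pj_lip lip).continuous.comp hc
  · intro x y hxy
    change pj f (S.bd x) = pj f (S.bd y) at hxy
    rw [pj_pos (pos x), pj_pos (pos y)] at hxy
    exact hi (Col.near.inj hxy)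
  · letI := colMetric lip
    rintro ⟨r, hr, hr'⟩
    exact hno ⟨fun q => r (pj f q), hr.comp (pj_lip lip).continuous, hr'⟩
  · intro x y
    change angle (x : E (d + 1)) (y : E (d + 1)) - η ≤ dC f (pj f (S.bd x)) (pj f (S.bd y))
    exact le_dC_pj _ _ (h x y) (sum x y) (pos x) (pos y)

end Pool.Agent.Q146.FVD
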