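import Pool.Agent.Q146.FVD.Balls

/-!
# Fillings with further boundary components
-/

set_option autoImplicit false

open MeasureTheory Metric Set Filter Topology InnerProductGeometry

namespace Pool.Agent.Q146.FVD

open Pool.Agent.H241R3.FV Pool.Agent.Q146.FVC

/-- A space `M` with a function `h`, a map `bd : S^d → M`, finitely many further sets
`hole j` and countably many Riemannian charts, such that the part `{h > 0}` of `M` is covered by the
boundary, the holes and the charts. -/
structure HoledFill (d : ℕ) (M : Type) [MetricSpace M] (h : M → ℝ) where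
  /-- index set of the charts -/
  ι : Type
  countable : Countable ι
  /-- the charts -/
  chart : ι → RChart (d + 1) M
  /-- the boundary sphere -/
  bd : Sph (d + 1) → M
  /-- index set of the holes -/
  J : Type
  fin : Fintype J
  /-- the further boundary components -/
  hole : J → Set M
  cover : ∀ q : M, 0 < h q → (∃ x, bd x = q) ∨ (∃ j, q ∈ hole j) ∨
    ∃ i, ∃ p ∈ (chart i).D, (chart i).map p = q

/-- the volume of `{h > 0}` -/
noncomputable def HoledFill.posVol {d : ℕ} {M : Type} [MetricSpace M] {h : M → ℝ}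
    (S : HoledFill d M h) : ENNReal :=
  ∑' i, ∫⁻ p in (S.chart i).D ∩ {p | 0 < h ((S.chart i).map p)},
    ENNReal.ofReal √((S.chart i).G p).det

/-- The hypotheses: the boundary sphere is nonshortcutting; the holes are compact, disjoint from it,
with diameters at most `r j`; `h` is `1`-Lipschitz, positive on the boundary sphere,
`h (bd x) + h (bd y) ≥ angle x y`, and the sets `{h ≥ c}`, `c > 0`, are compact; no continuous map
`M → S^d` is the identity on the boundary sphere and constant on every hole and on `{h ≤ 0}`. -/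
structure HoledFill.Good {d : ℕ} {M : Type} [MetricSpace M] {h : M → ℝ}
    (S : HoledFill d M h) (r : S.J → ℝ) : Prop where
  cont : Continuous S.bd
  long : ∀ x y : Sph (d + 1), angle (x : E (d + 1)) (y : E (d + 1)) ≤ dist (S.bd x) (S.bd y)
  compact : ∀ j, IsCompact (S.hole j)
  disjoint : ∀ j x, S.bd x ∉ S.hole j
  nonneg : ∀ j, 0 ≤ r j
  diam : ∀ j, ∀ p ∈ S.hole j, ∀ q ∈ S.hole j, dist p q ≤ r j
  lip : LipschitzWith 1 h
  pos : ∀ x, 0 < h (S.bd x)
  sum : ∀ x y : Sph (d + 1), angle (x : E (d + 1)) (y : E (d + 1)) ≤ h (S.bd x) + h (S.bd y)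
  cpt : ∀ c : ℝ, 0 < c → IsCompact {q | c ≤ h q}
  noRetraction : ¬ ∃ f : M → Sph (d + 1), Continuous f ∧ (∀ x, f (S.bd x) = x) ∧
    (∀ j, ∀ p ∈ S.hole j, ∀ q ∈ S.hole j, f p = f q) ∧
    ∀ p q, h p ≤ 0 → h q ≤ 0 → f p = f q

theorem holed_vol {d : ℕ} (hd : 1 ≤ d) {M : Type} [MetricSpace M] {h : M → ℝ}
    (S : HoledFill d M h) (r : S.J → ℝ) (hS : S.Good r) {R : ℝ}
    (hR : letI := S.fin; ∑ j, r j ≤ R) :
    kap d ≤ S.posVol + volume (ball (0 : E (d + 1)) 1) * ENNReal.ofReal
      ((2 * R / ∫ t in (0 : ℝ)..Real.pi, Real.sin t ^ (d + 1)) ^ (d + 1)) := by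
  classical
  letI := S.fin
  letI := colMetric hS.lip
  haveI : CompactSpace (Col h) := col_compact hS.lip hS.cpt
  have hn := Nat.succ_pos d
  have om0 := TConst.om_pos d
  have om1 := TConst.om_pos (d + 1)
  set w := ∫ t in (0 : ℝ)..Real.pi, Real.sin t ^ d with hw
  set w' := ∫ t in (0 : ℝ)..Real.pi, Real.sin t ^ (d + 1) with hw'
  have hw0 : 0 < w := integral_sin_pow_pos _
  have hw'0 : 0 < w' := integral_sin_pow_pos _
  have hlam : lam (d + 1) = om d * w := lam_eq
  have hom : om (d + 1) = om d * w' := om_succ hd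
  have hl : 0 < lam (d + 1) := by rw [hlam]; positivity
  have pjc : Continuous (pj h) := (pj_lip hS.lip).continuous
  let bd : Sph (d + 1) → Col h := fun x => pj h (S.bd x)
  have hbc : Continuous bd := pjc.comp hS.cont
  have hlong : ∀ x y : Sph (d + 1),
      angle (x : E (d + 1)) (y : E (d + 1)) - 0 ≤ dist (bd x) (bd y) := by
    intro x y
    rw [sub_zero]
    exact le_dC_pj _ _ (hS.long x y) (hS.sum x y) (hS.pos x) (hS.pos y)
  let Φ : Col h → E (d + 1) := Phi bd
  have hΦc : Continuous Φ := phi_cont hd bd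
  have hΦb : ∀ x, Φ (bd x) = lam (d + 1) • (x : E (d + 1)) := by
    intro x
    have h1 := phi_bd hd bd hlong x
    rw [zero_mul] at h1
    exact sub_eq_zero.1 (norm_eq_zero.1 (le_antisymm h1 (norm_nonneg _)))
  -- the holes in the collapsed space
  let H : Option S.J → Set (Col h) := fun o => o.elim {Col.far} (fun j => pj h '' S.hole j)
  have hHc : ∀ o, IsCompact (H o) := by
    rintro (_ | j)
    · exact isCompact_singleton
    · exact (hS.compact j).image pjc
  have hHd : ∀ o x, bd x ∉ H o := by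
    rintro (_ | j) x hx
    · have h1 : pj h (S.bd x) = Col.far := hx
      rw [pj_pos (hS.pos x)] at h1
      cases h1
    · obtain ⟨q, hq, hqx⟩ := hx
      change pj h q = pj h (S.bd x) at hqx
      by_cases hq0 : 0 < h q
      · rw [pj_pos hq0, pj_pos (hS.pos x)] at hqx
        have := Col.near.inj hqx
        rw [this] at hq
        exact hS.disjoint j x hq
      · rw [pj_neg hq0, pj_pos (hS.pos x)] at hqx
        cases hqx
  have hno : ¬ ∃ f : Col h → Sph (d + 1), Continuous f ∧ (∀ x, f (bd x) = x) ∧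
      ∀ o, ∀ p ∈ H o, ∀ q ∈ H o, f p = f q := by
    rintro ⟨f, hf, hf1, hf2⟩
    refine hS.noRetraction ⟨fun q => f (pj h q), hf.comp pjc, hf1, fun j p hp q hq => ?_,
      fun p q hp hq => ?_⟩
    · exact hf2 (some j) _ ⟨p, hp, rfl⟩ _ ⟨q, hq, rfl⟩
    · change f (pj h p) = f (pj h q)
      rw [pj_neg (not_lt.2 hp), pj_neg (not_lt.2 hq)]
  -- the balls
  let ctr : Option S.J → E (d + 1) := fun o =>
    if hne : (H o).Nonempty then Φ hne.some else 0
  let rad : Option S.J → ℝ := fun o => o.elim 0 (fun j => 2 * om d * r j)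
  have hrad0 : ∀ o, 0 ≤ rad o := by
    rintro (_ | j)
    · exact le_rfl
    · exact mul_nonneg (by positivity) (hS.nonneg j)
  have hHb : ∀ o, ∀ p ∈ H o, Φ p ∈ closedBall (ctr o) (rad o) := by
    intro o p hp
    have hne : (H o).Nonempty := ⟨p, hp⟩
    have e : ctr o = Φ hne.some := dif_pos hne
    rw [e, mem_closedBall, dist_eq_norm]
    have h1 := phi_lip2 hd bd p hne.some
    refine h1.trans ?_
    have h2 := hne.some_mem
    rcases o with _ | j
    · have e1 : p = Col.far := hp
      have e2 : hne.some = Col.far := h2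
      rw [e1, e2, dist_self, mul_zero]
      exact le_rfl
    · change 2 * om d * dist p hne.some ≤ 2 * om d * r j
      refine mul_le_mul_of_nonneg_left ?_ (by positivity)
      obtain ⟨a, ha, hap⟩ := hp
      obtain ⟨b, hb, hbp⟩ := h2
      rw [← hap, ← hbp]
      exact (dC_pj_le hS.lip a b).trans (hS.diam j a ha b hb)
  let s : Finset (E (d + 1) × ℝ) := Finset.univ.image fun o => (ctr o, rad o)
  obtain ⟨t, ht0, ht1, ht2, ht3⟩ := merge s.card s rfl (by
    intro b hb
    obtain ⟨o, -, rfl⟩ := Finset.mem_image.1 hb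
    exact hrad0 o)
  have hsR : ∑ b ∈ t, b.2 ≤ 2 * om d * R := by
    refine ht3.trans ?_
    have h1 : ∑ b ∈ s, b.2 ≤ ∑ o, rad o := by
      refine Finset.sum_image_le_of_nonneg (g := fun o => (ctr o, rad o))
        (f := fun b : E (d + 1) × ℝ => b.2) (fun b hb => ?_)
      obtain ⟨o, -, rfl⟩ := Finset.mem_image.1 hb
      exact hrad0 o
    refine h1.trans ?_
    rw [Fintype.sum_option]
    change 0 + ∑ j, 2 * om d * r j ≤ _
    rw [zero_add, ← Finset.mul_sum]
    exact mul_le_mul_of_nonneg_left hR (by positivity)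
  have hHt : ∀ o, ∃ b ∈ t, ∀ p ∈ H o, Φ p ∈ closedBall b.1 b.2 := by
    intro o
    obtain ⟨b', hb', hsub⟩ := ht2 (ctr o, rad o) (Finset.mem_image.2 ⟨o, Finset.mem_univ _, rfl⟩)
    exact ⟨b', hb', fun p hp => hsub (hHb o p hp)⟩
  have hcov := cover_holes hn bd hbc H hHc hHd hno Φ hΦc hl hΦb t ht0 ht1 hHt
  have hcount := S.countable
  have hsub : ball (0 : E (d + 1)) (lam (d + 1)) ⊆ (⋃ b ∈ t, closedBall b.1 b.2) ∪
      ⋃ i, (fun p => Phi bd ((colChart hS.lip (S.chart i)).map p)) ''
        (colChart hS.lip (S.chart i)).D := by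
    intro y hy
    rcases hcov hy with h1 | ⟨q, rfl⟩
    · exact Or.inl h1
    by_cases hyb : Φ q ∈ ⋃ b ∈ t, closedBall b.1 b.2
    · exact Or.inl hyb
    right
    have hq : ∀ o, q ∉ H o := by
      intro o ho
      obtain ⟨b, hb, hbH⟩ := hHt o
      exact hyb (mem_biUnion hb (hbH q ho))
    rcases pj_surj q with rfl | ⟨m, hm, rfl⟩
    · exact absurd rfl (hq none)
    rcases S.cover m hm with ⟨x, rfl⟩ | ⟨j, hj⟩ | ⟨i, p, hp, rfl⟩
    · exfalso
      have h1 : Φ (pj h (S.bd x)) = lam (d + 1) • (x : E (d + 1)) := hΦb x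
      rw [h1, mem_ball_zero_iff, norm_smul, norm_sph, mul_one, Real.norm_of_nonneg hl.le] at hy
      exact lt_irrefl _ hy
    · exact absurd ⟨m, hj, rfl⟩ (hq (some j))
    · exact mem_iUnion.mpr ⟨i, ⟨p, ⟨hp, hm⟩, rfl⟩⟩
  have htot : volume (ball (0 : E (d + 1)) (lam (d + 1))) ≤
      volume (ball (0 : E (d + 1)) 1) * ENNReal.ofReal ((2 * om d * R) ^ (d + 1)) +
      ENNReal.ofReal (om (d + 1) ^ (d + 1)) * S.posVol := by
    calc volume (ball (0 : E (d + 1)) (lam (d + 1)))
        ≤ volume ((⋃ b ∈ t, closedBall b.1 b.2) ∪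
          ⋃ i, (fun p => Phi bd ((colChart hS.lip (S.chart i)).map p)) ''
            (colChart hS.lip (S.chart i)).D) := measure_mono hsub
      _ ≤ volume (⋃ b ∈ t, closedBall b.1 b.2) +
          volume (⋃ i, (fun p => Phi bd ((colChart hS.lip (S.chart i)).map p)) ''
            (colChart hS.lip (S.chart i)).D) := measure_union_le _ _
      _ ≤ _ := by
          refine add_le_add (vol_balls (Nat.succ_ne_zero d) t ht0 hsR) ?_
          calc volume (⋃ i, (fun p => Phi bd ((colChart hS.lip (S.chart i)).map p)) ''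
                (colChart hS.lip (S.chart i)).D)
              ≤ ∑' i, volume ((fun p => Phi bd ((colChart hS.lip (S.chart i)).map p)) ''
                (colChart hS.lip (S.chart i)).D) := measure_iUnion_le _
            _ ≤ ∑' i, ENNReal.ofReal (om (d + 1) ^ (d + 1)) *
                  ∫⁻ p in (colChart hS.lip (S.chart i)).D,
                    ENNReal.ofReal √((colChart hS.lip (S.chart i)).G p).det :=
                ENNReal.tsum_le_tsum fun i => chart_image hd bd (colChart hS.lip (S.chart i))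
            _ = _ := ENNReal.tsum_mul_left
  rw [Measure.addHaar_ball _ _ hl.le] at htot
  have hfin : Module.finrank ℝ (E (d + 1)) = d + 1 := by simp
  rw [hfin] at htot
  have hne : ENNReal.ofReal (om (d + 1) ^ (d + 1)) ≠ 0 := by
    rw [Ne, ENNReal.ofReal_eq_zero, not_le]
    positivity
  have hR0 : 0 ≤ R := (Finset.sum_nonneg fun j _ => hS.nonneg j).trans hR
  rw [← ENNReal.mul_le_mul_iff_right hne ENNReal.ofReal_ne_top]
  have e1 : ENNReal.ofReal (om (d + 1) ^ (d + 1)) * kap d =
      ENNReal.ofReal (lam (d + 1) ^ (d + 1)) * volume (ball (0 : E (d + 1)) 1) := by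
    unfold kap
    rw [← hw, ← hw', mul_comm (volume (ball (0 : E (d + 1)) 1)), ← mul_assoc,
      ← ENNReal.ofReal_mul (by positivity)]
    congr 2
    rw [hlam, hom, div_pow, mul_pow, mul_pow]
    field_simp
  have e2 : ENNReal.ofReal (om (d + 1) ^ (d + 1)) * (volume (ball (0 : E (d + 1)) 1) *
      ENNReal.ofReal ((2 * R / w') ^ (d + 1))) =
      volume (ball (0 : E (d + 1)) 1) * ENNReal.ofReal ((2 * om d * R) ^ (d + 1)) := by
    rw [mul_left_comm, ← ENNReal.ofReal_mul (by positivity)]
    congr 2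
    rw [hom, div_pow, mul_pow, mul_pow, mul_pow, mul_pow]
    field_simp
  rw [mul_add, e1, e2]
  exact htot.trans (le_of_eq (add_comm _ _))

end Pool.Agent.Q146.FVD
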