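import Pool.Agent.Q146.FVD.Cover

/-!
# Nets of points of the boundary sphere
-/

set_option autoImplicit false

open MeasureTheory Metric Set Filter Topology InnerProductGeometry

namespace Pool.Agent.Q146.FVD

open Pool.Agent.H241R3.FV Pool.Agent.Q146.FVC

/-- every point of the sphere is within `δ` of a point of `P` -/
def Net {d : ℕ} (P : Set (Sph (d + 1))) (δ : ℝ) : Prop :=
  ∀ x : Sph (d + 1), ∃ p ∈ P, angle (x : E (d + 1)) (p : E (d + 1)) ≤ δ

/-- the condition `dist (bd p) (bd q) ≥ angle p q` for `p, q ∈ P` -/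
def LongOn {d : ℕ} {M : Type} [MetricSpace M] (S : Fill d M) (P : Set (Sph (d + 1))) : Prop :=
  ∀ x ∈ P, ∀ y ∈ P, angle (x : E (d + 1)) (y : E (d + 1)) ≤ dist (S.bd x) (S.bd y)

/-- the boundary is an injective `K`-Lipschitz image of the sphere, and it is no retract -/
structure Bdry {d : ℕ} {M : Type} [MetricSpace M] (S : Fill d M) (K : ℝ) : Prop where
  nonneg : 0 ≤ K
  lip : AngleLip S K
  inj : Function.Injective S.bd
  noRetraction : S.NoRetraction

theorem Bdry.cont {d : ℕ} {M : Type} [MetricSpace M] {S : Fill d M} {K : ℝ} (h : Bdry S K) :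
    Continuous S.bd := by
  rw [continuous_iff_continuousAt]
  intro x0
  have h1 := (TBdry.cont_angle x0).tendsto x0
  have h0 : angle (x0 : E (d + 1)) (x0 : E (d + 1)) = 0 := by
    refine angle_self ?_
    intro h2
    have := norm_sph x0
    rw [h2, norm_zero] at this
    exact zero_ne_one this
  rw [h0] at h1
  have h2 := h1.const_mul K
  rw [mul_zero] at h2
  rw [ContinuousAt, tendsto_iff_dist_tendsto_zero]
  exact squeeze_zero (fun _ => dist_nonneg) (fun x => h.lip x x0) h2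

theorem long_of_net {d : ℕ} {M : Type} [MetricSpace M] {S : Fill d M} {K δ : ℝ} (h : Bdry S K)
    {P : Set (Sph (d + 1))} (hP : Net P δ) (hL : LongOn S P) (x y : Sph (d + 1)) :
    angle (x : E (d + 1)) (y : E (d + 1)) - 2 * (1 + K) * δ ≤ dist (S.bd x) (S.bd y) := by
  obtain ⟨p, hp, hxp⟩ := hP x
  obtain ⟨q, hq, hyq⟩ := hP y
  have h1 := hL p hp q hq
  have h2 : dist (S.bd x) (S.bd p) ≤ K * δ :=
    (h.lip x p).trans (mul_le_mul_of_nonneg_left hxp h.nonneg)
  have h3 : dist (S.bd y) (S.bd q) ≤ K * δ :=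
    (h.lip y q).trans (mul_le_mul_of_nonneg_left hyq h.nonneg)
  have h4 := dist_triangle4 (S.bd p) (S.bd x) (S.bd y) (S.bd q)
  rw [dist_comm (S.bd p) (S.bd x)] at h4
  have h5 := angle_le_angle_add_angle (x : E (d + 1)) (p : E (d + 1)) (y : E (d + 1))
  have h6 := angle_le_angle_add_angle (p : E (d + 1)) (q : E (d + 1)) (y : E (d + 1))
  rw [angle_comm (q : E (d + 1)) (y : E (d + 1))] at h6
  linarith

theorem height_of_net {d : ℕ} {M : Type} [MetricSpace M] {S : Fill d M} {K δ : ℝ} (h : Bdry S K)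
    {P : Set (Sph (d + 1))} (hP : Net P δ) {f : M → ℝ} (hf : NearHeight S f P)
    (x y : Sph (d + 1)) :
    angle (x : E (d + 1)) (y : E (d + 1)) - 2 * (1 + K) * δ ≤ f (S.bd x) + f (S.bd y) := by
  obtain ⟨p, hp, hxp⟩ := hP x
  obtain ⟨q, hq, hyq⟩ := hP y
  have h1 := hf.sum p hp q hq
  have h2 : dist (S.bd x) (S.bd p) ≤ K * δ :=
    (h.lip x p).trans (mul_le_mul_of_nonneg_left hxp h.nonneg)
  have h3 : dist (S.bd y) (S.bd q) ≤ K * δ :=
    (h.lip y q).trans (mul_le_mul_of_nonneg_left hyq h.nonneg)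
  have h4 := lip_le hf.lip (S.bd p) (S.bd x)
  have h4' := lip_le hf.lip (S.bd q) (S.bd y)
  rw [dist_comm] at h4 h4'
  have h5 := angle_le_angle_add_angle (x : E (d + 1)) (p : E (d + 1)) (y : E (d + 1))
  have h6 := angle_le_angle_add_angle (p : E (d + 1)) (q : E (d + 1)) (y : E (d + 1))
  rw [angle_comm (q : E (d + 1)) (y : E (d + 1))] at h6
  linarith

end Pool.Agent.Q146.FVD
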