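import Pool.Agent.Q146.FVD.Base

/-!
# Boundary distances bounded below by a function of the angle
-/

set_option autoImplicit false

open MeasureTheory Metric Set Filter Topology InnerProductGeometry

namespace Pool.Agent.Q146.FVD

open Pool.Agent.H241R3.FV Pool.Agent.Q146.FVC

/-- A continuous, nondecreasing, subadditive function `F` with `F 0 = 0` and `F a ≤ a`. -/
structure Profile (F : ℝ → ℝ) : Prop where
  cont : Continuous F
  mono : Monotone F
  zero : F 0 = 0
  sub : ∀ a b : ℝ, 0 ≤ a → 0 ≤ b → F (a + b) ≤ F a + F b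
  le : ∀ a : ℝ, 0 ≤ a → F a ≤ a

variable {F : ℝ → ℝ}

theorem Profile.nonneg (hF : Profile F) {a : ℝ} (ha : 0 ≤ a) : 0 ≤ F a := by
  rw [← hF.zero]; exact hF.mono ha

theorem Profile.tri (hF : Profile F) {n : ℕ} (x y z : E n) :
    F (angle x z) ≤ F (angle x y) + F (angle y z) :=
  (hF.mono (angle_le_angle_add_angle x y z)).trans (hF.sub _ _ (angle_nonneg _ _) (angle_nonneg _ _))

/-- the extension of `F (angle x ·)` -/
noncomputable def extF (F : ℝ → ℝ) {n : ℕ} {M : Type} [MetricSpace M] (bd : Sph n → M)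
    (x : Sph n) (q : M) : ℝ :=
  ⨅ p : Sph n, (F (angle (x : E n) (p : E n)) + dist q (bd p))

theorem extF_bdd (hF : Profile F) {n : ℕ} {M : Type} [MetricSpace M] (bd : Sph n → M)
    (x : Sph n) (q : M) :
    BddBelow (Set.range fun p : Sph n => F (angle (x : E n) (p : E n)) + dist q (bd p)) := by
  refine ⟨0, ?_⟩
  rintro _ ⟨p, rfl⟩
  exact add_nonneg (hF.nonneg (angle_nonneg _ _)) dist_nonneg

theorem extF_le_add (hF : Profile F) {n : ℕ} (hn : 0 < n) {M : Type} [MetricSpace M]
    (bd : Sph n → M) (x x' : Sph n) (q q' : M) (c : ℝ)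
    (h : ∀ p : Sph n, F (angle (x : E n) (p : E n)) + dist q (bd p)
      ≤ F (angle (x' : E n) (p : E n)) + dist q' (bd p) + c) :
    extF F bd x q ≤ extF F bd x' q' + c := by
  have := TExt.sph_nonempty hn
  have h1 : extF F bd x q - c ≤ extF F bd x' q' := by
    unfold extF
    apply le_ciInf
    intro p
    have h2 := ciInf_le (extF_bdd hF bd x q) p
    have h3 := h p
    linarith
  linarith

theorem faF (hF : Profile F) {n : ℕ} (hn : 0 < n) {M : Type} [MetricSpace M] (bd : Sph n → M)
    (x : Sph n) (q q' : M) : |extF F bd x q - extF F bd x q'| ≤ dist q q' := by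
  rw [abs_le]
  have h1 := extF_le_add hF hn bd x x q' q (dist q q') (fun p => by
    have := dist_triangle q' q (bd p)
    rw [dist_comm q' q] at this
    linarith)
  have h2 := extF_le_add hF hn bd x x q q' (dist q q') (fun p => by
    have := dist_triangle q q' (bd p)
    linarith)
  constructor <;> linarith

theorem fbF (hF : Profile F) {n : ℕ} (hn : 0 < n) {M : Type} [MetricSpace M] (bd : Sph n → M)
    (x x' : Sph n) (q : M) :
    |extF F bd x q - extF F bd x' q| ≤ angle (x : E n) (x' : E n) := by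
  rw [abs_le]
  have h0 := hF.le _ (angle_nonneg (x : E n) (x' : E n))
  have h1 := extF_le_add hF hn bd x' x q q (angle (x : E n) (x' : E n)) (fun p => by
    have := hF.tri (x' : E n) (x : E n) (p : E n)
    rw [angle_comm (x' : E n) (x : E n)] at this
    linarith)
  have h2 := extF_le_add hF hn bd x x' q q (angle (x : E n) (x' : E n)) (fun p => by
    have := hF.tri (x : E n) (x' : E n) (p : E n)
    linarith)
  constructor <;> linarith

theorem extF_bd (hF : Profile F) {n : ℕ} (hn : 0 < n) {M : Type} [MetricSpace M]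
    (bd : Sph n → M)
    (h : ∀ x y : Sph n, F (angle (x : E n) (y : E n)) ≤ dist (bd x) (bd y)) (x p : Sph n) :
    extF F bd x (bd p) = F (angle (x : E n) (p : E n)) := by
  apply le_antisymm
  · have h := ciInf_le (extF_bdd hF bd x (bd p)) p
    rw [dist_self, add_zero] at h
    exact h
  · have := TExt.sph_nonempty hn
    unfold extF
    apply le_ciInf
    intro p'
    have h1 := hF.tri (x : E n) (p' : E n) (p : E n)
    have h2 := h p' p
    rw [dist_comm] at h2
    linarith

/-- the map into Euclidean space -/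
noncomputable def PhiF (F : ℝ → ℝ) {n : ℕ} {M : Type} [MetricSpace M] (bd : Sph n → M)
    (q : M) : E n :=
  -∫ x : Sph n, extF F bd x q • (x : E n) ∂(sig n)

theorem extF_int (hF : Profile F) {n : ℕ} (hn : 0 < n) {M : Type} [MetricSpace M]
    (bd : Sph n → M) (q : M) :
    Integrable (fun x : Sph n => extF F bd x q • (x : E n)) (sig n) :=
  TBdry.integrable_of_cont _
    ((cont_of_angle _ (fun x x' => fbF hF hn bd x x' q)).smul continuous_subtype_val)

theorem phiF_lip (hF : Profile F) {d : ℕ} (hd : 1 ≤ d) {M : Type} [MetricSpace M]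
    (bd : Sph (d + 1) → M) (q q' : M) :
    ‖PhiF F bd q - PhiF F bd q'‖ ≤ 2 * om d * dist q q' := by
  have hn := Nat.succ_pos d
  have h1 : PhiF F bd q - PhiF F bd q' =
      ∫ x : Sph (d + 1), (extF F bd x q' - extF F bd x q) • (x : E (d + 1)) ∂(sig (d + 1)) := by
    unfold PhiF
    rw [sub_neg_eq_add, neg_add_eq_sub, ← integral_sub (extF_int hF hn bd q')
      (extF_int hF hn bd q)]
    congr 1
    ext1 x
    rw [sub_smul]
  rw [h1]
  refine (vec_bound hd _ ((cont_of_angle _ (fun x x' => fbF hF hn bd x x' q')).sub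
    (cont_of_angle _ (fun x x' => fbF hF hn bd x x' q))) (a := -dist q q') (b := dist q q')
    (fun x => ?_) (fun x => ?_)).trans (le_of_eq (by ring))
  · have := (abs_le.1 (faF hF hn bd x q' q)).1
    rw [dist_comm] at this
    exact this
  · have := (abs_le.1 (faF hF hn bd x q' q)).2
    rw [dist_comm] at this
    exact this

theorem phiF_cont (hF : Profile F) {d : ℕ} (hd : 1 ≤ d) {M : Type} [MetricSpace M]
    (bd : Sph (d + 1) → M) : Continuous (PhiF F bd) := by
  have hom := TConst.om_pos d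
  have : LipschitzWith (Real.toNNReal (2 * om d)) (PhiF F bd) := by
    refine LipschitzWith.of_dist_le_mul fun q q' => ?_
    rw [dist_eq_norm, Real.coe_toNNReal _ (by positivity)]
    exact phiF_lip hF hd bd q q'
  exact this.continuous

/-! ### The boundary values -/

/-- the vector field -/
noncomputable def VF (F : ℝ → ℝ) {n : ℕ} (p : Sph n) : E n :=
  ∫ x : Sph n, F (angle (x : E n) (p : E n)) • (x : E n) ∂(sig n)

theorem VF_rot {n : ℕ} (hn : 0 < n) (R : E n ≃ₗᵢ[ℝ] E n) (p : Sph n) :
    R (VF F p) = VF F (rot R p) := by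
  unfold VF
  rw [← TBdry.int_rot hn TInv.taskInv R
    (fun x : Sph n => F (angle (x : E n) ((rot R p : Sph n) : E n)) • (x : E n))]
  have h1 : R (∫ x : Sph n, F (angle (x : E n) (p : E n)) • (x : E n) ∂(sig n)) =
      ∫ x : Sph n, R (F (angle (x : E n) (p : E n)) • (x : E n)) ∂(sig n) :=
    (ContinuousLinearEquiv.integral_comp_comm R.toContinuousLinearEquiv _).symm
  rw [h1]
  congr 1
  ext x : 1
  rw [TBdry.angle_rot]
  simp [rot]

theorem VF_mem {n : ℕ} (hn : 0 < n) (p : Sph n) : VF F p ∈ (ℝ ∙ (p : E n)) := by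
  have h := VF_rot (F := F) hn ((ℝ ∙ (p : E n)).reflection) p
  have h2 : rot ((ℝ ∙ (p : E n)).reflection) p = p := by
    apply Subtype.ext
    simp only [rot]
    exact Submodule.reflection_mem_subspace_eq_self (Submodule.mem_span_singleton_self _)
  rw [h2] at h
  exact (Submodule.reflection_eq_self_iff _).1 h

/-- `-d ∫₀^π F(t) cos t sin^(d-1) t dt`, which is `∫₀^π F' sin^d` -/
noncomputable def mu (F : ℝ → ℝ) (d : ℕ) : ℝ :=
  -(d * ∫ t in (0 : ℝ)..Real.pi, (F t * Real.cos t) * Real.sin t ^ (d - 1))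

theorem VF_eq (hF : Profile F) {d : ℕ} (hd : 1 ≤ d) (p : Sph (d + 1)) :
    VF F p = -(om d * mu F d) • (p : E (d + 1)) := by
  have hn : 0 < d + 1 := Nat.succ_pos d
  obtain ⟨c, hc⟩ := Submodule.mem_span_singleton.1 (VF_mem (F := F) hn p)
  have hin : inner ℝ (p : E (d + 1)) (VF F p) = c := by
    rw [← hc, inner_smul_right, real_inner_self_eq_norm_sq, TBdry.norm_sph]
    simp
  obtain ⟨R, hR⟩ := TBdry.exists_rot p
  have h1 : inner ℝ (p : E (d + 1)) (VF F p) = ∫ x : Sph (d + 1),
      (fun t : ℝ => F t * Real.cos t) (angle (x : E (d + 1)) (p : E (d + 1))) ∂(sig (d + 1)) := by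
    unfold VF
    have hint : Integrable (fun x : Sph (d + 1) =>
        F (angle (x : E (d + 1)) (p : E (d + 1))) • (x : E (d + 1))) (sig (d + 1)) :=
      TBdry.integrable_of_cont _ ((hF.cont.comp (TBdry.cont_angle p)).smul continuous_subtype_val)
    rw [← integral_inner hint]
    congr 1
    ext x : 1
    have h1 : Real.cos (angle (x : E (d + 1)) (p : E (d + 1))) =
        inner ℝ (p : E (d + 1)) (x : E (d + 1)) := by
      rw [InnerProductGeometry.cos_angle, TBdry.norm_sph, TBdry.norm_sph, mul_one, div_one,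
        real_inner_comm]
    rw [inner_smul_right, ← h1]
  rw [hin] at h1
  have h2 : ∫ x : Sph (d + 1), (fun t : ℝ => F t * Real.cos t)
      (angle (x : E (d + 1)) (p : E (d + 1))) ∂(sig (d + 1)) =
      ∫ x : Sph (d + 1), (fun t : ℝ => F t * Real.cos t)
        (angle (x : E (d + 1)) (EuclideanSpace.single 0 1)) ∂(sig (d + 1)) := by
    rw [← TBdry.int_rot hn TInv.taskInv R (fun x : Sph (d + 1) => (fun t : ℝ => F t * Real.cos t)
        (angle (x : E (d + 1)) (EuclideanSpace.single 0 1)))]
    congr 1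
    ext x : 1
    have h3 : angle ((rot R x : Sph (d + 1)) : E (d + 1)) (EuclideanSpace.single 0 1) =
        angle (x : E (d + 1)) (p : E (d + 1)) := by
      rw [← TBdry.angle_rot R x p, ← hR]
      rfl
    rw [h3]
  rw [h2, TPolar.taskPolar d hd (fun t => F t * Real.cos t)
    (hF.cont.mul Real.continuous_cos)] at h1
  rw [← hc]
  congr 1
  rw [h1]
  unfold mu
  ring

theorem phiF_bd (hF : Profile F) {d : ℕ} (hd : 1 ≤ d) {M : Type} [MetricSpace M]
    (bd : Sph (d + 1) → M)
    (h : ∀ x y : Sph (d + 1), F (angle (x : E (d + 1)) (y : E (d + 1))) ≤ dist (bd x) (bd y))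
    (p : Sph (d + 1)) : PhiF F bd (bd p) = (om d * mu F d) • (p : E (d + 1)) := by
  unfold PhiF
  have h1 : (fun x : Sph (d + 1) => extF F bd x (bd p) • (x : E (d + 1))) =
      fun x : Sph (d + 1) => F (angle (x : E (d + 1)) (p : E (d + 1))) • (x : E (d + 1)) := by
    funext x
    rw [extF_bd hF (Nat.succ_pos d) bd h x p]
  rw [h1]
  change -(VF F p) = _
  rw [VF_eq hF hd p, neg_smul, neg_neg]

/-- the image of a chart -/
theorem chart_imageF (hF : Profile F) {d : ℕ} (hd : 1 ≤ d) {M : Type} [MetricSpace M]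
    (bd : Sph (d + 1) → M) (C : RChart (d + 1) M) :
    volume ((fun p => PhiF F bd (C.map p)) '' C.D) ≤
      ENNReal.ofReal (om (d + 1) ^ (d + 1)) *
        ∫⁻ p in C.D, ENNReal.ofReal √(C.G p).det := by
  classical
  have fa := faF hF (Nat.succ_pos d) bd
  have fb := fbF hF (Nat.succ_pos d) bd
  obtain ⟨om_pos, lam_pos, sig_univ, ratio⟩ := TConst.taskConst TPolar.taskPolar d hd
  have om0 := TConst.om_pos d
  let Φ : M → E (d + 1) := PhiF F bd
  have hlip : ∀ q q', ‖Φ q - Φ q'‖ ≤ dist q q' * (2 * om d) := fun q q' => by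
    rw [mul_comm]; exact phiF_lip hF hd bd q q'
  let Ψ : E (d + 1) → E (d + 1) := fun p => Φ (C.map p)
  have hloc := TLoc.taskLoc (d + 1) M C
  have hdiff := TDiff.taskDiff (d + 1) (Nat.succ_pos d) C.U C.isOpen_U C.G
    (fun x p => extF F bd x (C.map p)) (by
      intro p hp ε hε
      obtain ⟨r, hr, hr2, hr3⟩ := hloc p hp ε hε
      exact ⟨r, hr, hr2, fun x y hy z hz => (fa x _ _).trans (hr3 y hy z hz)⟩)
    (fun x x' p _ => fb x x' _)
  -- the derivative of Ψ
  let good : E (d + 1) → (E (d + 1) →L[ℝ] E (d + 1)) → Prop := fun p L =>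
    HasFDerivAt Ψ L p ∧ |L.det| ≤ om (d + 1) ^ (d + 1) * √(C.G p).det
  have hgood : ∀ᵐ p ∂(volume : Measure (E (d + 1))), p ∈ C.U → ∃ L, good p L := by
    filter_upwards [hdiff] with p hp hpU
    obtain ⟨L, hL1, hL2⟩ := hp hpU
    refine ⟨-L, ?_, ?_⟩
    · exact hL1.neg
    · have e1 : |(-L).det| = |L.det| := by
        have h1 : (-L).det = (-1) ^ (d + 1) * L.det := by
          have h2 : (-L : E (d + 1) →L[ℝ] E (d + 1)) = (-1 : ℝ) • L := by
            ext v k
            simp
          show LinearMap.det ((-L : E (d + 1) →L[ℝ] E (d + 1)) : E (d + 1) →ₗ[ℝ] E (d + 1)) = _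
          rw [h2]
          show LinearMap.det ((-1 : ℝ) • (L : E (d + 1) →ₗ[ℝ] E (d + 1))) = _
          rw [LinearMap.det_smul]
          simp
        rw [h1, abs_mul, abs_pow, abs_neg, abs_one, one_pow, one_mul]
      rw [e1, det_mat]
      refine TMat.taskMat (d + 1) (Nat.succ_pos d) (mat L) (C.G p) (C.pos_G p hpU) (om (d + 1))
        om_pos.le ?_
      intro A hA
      refine (hL2 A).trans ?_
      have h1 : (fun x : Sph (d + 1) => gnorm (C.G p) (act A (x : E (d + 1)))) =
          fun _ => (1 : ℝ) := by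
        funext x
        exact gnorm_act _ _ hA x
      rw [h1, integral_const, smul_eq_mul, mul_one, sig_univ]
  let bad : Set (E (d + 1)) := {p | ¬ (p ∈ C.U → ∃ L, good p L)}
  have hbad : volume bad = 0 := hgood
  let N : Set (E (d + 1)) := toMeasurable volume bad
  have hN0 : volume N = 0 := by rw [measure_toMeasurable, hbad]
  have hNm : MeasurableSet N := measurableSet_toMeasurable _ _
  have hbN : bad ⊆ N := subset_toMeasurable _ _
  have hex : ∀ p ∈ C.D \ N, ∃ L, good p L := by
    intro p hp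
    by_contra hcon
    apply hp.2
    apply hbN
    show ¬ (p ∈ C.U → ∃ L, good p L)
    intro h
    exact hcon (h (C.D_sub hp.1))
  let f' : E (d + 1) → (E (d + 1) →L[ℝ] E (d + 1)) := fun p =>
    if h : ∃ L, good p L then h.choose else 0
  have hf' : ∀ p ∈ C.D \ N, good p (f' p) := by
    intro p hp
    have h := hex p hp
    simp only [f', dif_pos h]
    exact h.choose_spec
  have step1 : volume (Ψ '' (C.D \ N)) ≤
      ∫⁻ p in C.D \ N, ENNReal.ofReal |(f' p).det| :=
    addHaar_image_le_lintegral_abs_det_fderiv volume (C.meas_D.diff hNm)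
      (fun p hp => (hf' p hp).1.hasFDerivWithinAt)
  have step2 : ∫⁻ p in C.D \ N, ENNReal.ofReal |(f' p).det| ≤
      ENNReal.ofReal (om (d + 1) ^ (d + 1)) *
        ∫⁻ p in C.D, ENNReal.ofReal √(C.G p).det := by
    rw [← lintegral_const_mul' _ _ ENNReal.ofReal_ne_top]
    calc ∫⁻ p in C.D \ N, ENNReal.ofReal |(f' p).det|
        ≤ ∫⁻ p in C.D \ N, ENNReal.ofReal (om (d + 1) ^ (d + 1)) *
            ENNReal.ofReal √(C.G p).det := by
          refine setLIntegral_mono' (C.meas_D.diff hNm) fun p hp => ?_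
          rw [← ENNReal.ofReal_mul (by positivity)]
          exact ENNReal.ofReal_le_ofReal (hf' p hp).2
      _ ≤ _ := lintegral_mono_set sdiff_subset
  have step3 : volume (Ψ '' (C.D ∩ N)) = 0 := by
    refine TNull.taskNull (d + 1) C.U Ψ ?_ _ (fun p hp => C.D_sub hp.1) ?_
    · intro p hp
      obtain ⟨r, hr, hr2, hr3⟩ := hloc p hp 1 one_pos
      refine ⟨r, hr, (√(∑ i, ∑ j, |C.G p i j|) + 1) * (2 * om d), ?_⟩
      intro y hy z hz
      calc ‖Ψ y - Ψ z‖ ≤ dist (C.map y) (C.map z) * (2 * om d) := hlip _ _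
        _ ≤ (gnorm (C.G p) (y - z) + 1 * ‖y - z‖) * (2 * om d) := by
            gcongr
            exact hr3 y hy z hz
        _ ≤ (√(∑ i, ∑ j, |C.G p i j|) * ‖y - z‖ + 1 * ‖y - z‖) *
              (2 * om d) := by
            gcongr
            exact gnorm_le _ _
        _ = _ := by ring
    · exact measure_mono_null inter_subset_right hN0
  calc volume (Ψ '' C.D) ≤ volume (Ψ '' (C.D \ N) ∪ Ψ '' (C.D ∩ N)) := by
        apply measure_mono
        rw [← image_union, sdiff_union_inter]
    _ ≤ volume (Ψ '' (C.D \ N)) + volume (Ψ '' (C.D ∩ N)) := measure_union_le _ _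
    _ = volume (Ψ '' (C.D \ N)) := by rw [step3, add_zero]
    _ ≤ _ := step1.trans step2

/-! ### The collar -/

/-- A space `M` with a function `h`, a map `bd : S^d → M` and countably many Riemannian charts, such
that the part `{h > 0}` of `M` is covered by the boundary and the charts. -/
structure NearFill (d : ℕ) (M : Type) [MetricSpace M] (h : M → ℝ) where
  /-- index set of the charts -/
  ι : Type
  countable : Countable ι
  /-- the charts -/
  chart : ι → RChart (d + 1) M
  /-- the boundary sphere -/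
  bd : Sph (d + 1) → M
  cover : ∀ q : M, 0 < h q → (∃ x, bd x = q) ∨ ∃ i, ∃ p ∈ (chart i).D, (chart i).map p = q

/-- the volume of `{h > 0}` -/
noncomputable def NearFill.posVol {d : ℕ} {M : Type} [MetricSpace M] {h : M → ℝ}
    (S : NearFill d M h) : ENNReal :=
  ∑' i, ∫⁻ p in (S.chart i).D ∩ {p | 0 < h ((S.chart i).map p)},
    ENNReal.ofReal √((S.chart i).G p).det

/-- No continuous map `M → S^d` is the identity on the boundary sphere and constant on `{h ≤ 0}`. -/
def NearFill.NoRetraction {d : ℕ} {M : Type} [MetricSpace M] {h : M → ℝ}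
    (S : NearFill d M h) : Prop :=
  ¬ ∃ f : M → Sph (d + 1), Continuous f ∧ (∀ x, f (S.bd x) = x) ∧
    ∀ p q, h p ≤ 0 → h q ≤ 0 → f p = f q

theorem vol_profile (hF : Profile F) {d : ℕ} (hd : 1 ≤ d) {M : Type} [MetricSpace M] {h : M → ℝ}
    (S : NearFill d M h) (lip : LipschitzWith 1 h) (hno : S.NoRetraction)
    (h1 : ∀ x y : Sph (d + 1),
      F (angle (x : E (d + 1)) (y : E (d + 1))) ≤ dist (S.bd x) (S.bd y))
    (h2 : ∀ x y : Sph (d + 1),
      F (angle (x : E (d + 1)) (y : E (d + 1))) ≤ h (S.bd x) + h (S.bd y))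
    (hmu : 0 < mu F d) :
    volume (ball (0 : E (d + 1)) 1) * ENNReal.ofReal
      ((mu F d / ∫ t in (0 : ℝ)..Real.pi, Real.sin t ^ (d + 1)) ^ (d + 1)) ≤ S.posVol := by
  letI := colMetric lip
  have hn := Nat.succ_pos d
  have om0 := TConst.om_pos d
  have om1 := TConst.om_pos (d + 1)
  set w' := ∫ t in (0 : ℝ)..Real.pi, Real.sin t ^ (d + 1) with hw'
  have hw'0 : 0 < w' := integral_sin_pow_pos _
  have hom : om (d + 1) = om d * w' := om_succ hd
  have hl : 0 < om d * mu F d := by positivity
  have pjc : Continuous (pj h) := (pj_lip lip).continuous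
  let bd : Sph (d + 1) → Col h := fun x => pj h (S.bd x)
  have hbn : ∀ x, 0 ≤ h (S.bd x) := by
    intro x
    have h3 := h2 x x
    have h4 := hF.nonneg (angle_nonneg (x : E (d + 1)) (x : E (d + 1)))
    linarith
  have hlong : ∀ x y : Sph (d + 1),
      F (angle (x : E (d + 1)) (y : E (d + 1))) ≤ dist (bd x) (bd y) := by
    intro x y
    change _ ≤ dC h (pj h (S.bd x)) (pj h (S.bd y))
    have h3 := h1 x y
    have h4 := h2 x y
    by_cases hp : 0 < h (S.bd x) <;> by_cases hq : 0 < h (S.bd y)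
    · exact le_dC_pj _ _ h3 h4 hp hq
    · rw [pj_pos hp, pj_neg hq]
      change _ ≤ h (S.bd x)
      linarith [not_lt.1 hq]
    · rw [pj_neg hp, pj_pos hq]
      change _ ≤ h (S.bd y)
      linarith [not_lt.1 hp]
    · rw [pj_neg hp, pj_neg hq]
      change _ ≤ (0 : ℝ)
      linarith [not_lt.1 hp, not_lt.1 hq]
  have hΦb := phiF_bd hF hd bd hlong
  have hcov := TCover.taskCover (d + 1) hn (Col h) bd (by
    rintro ⟨f, hf, hf1⟩
    refine hno ⟨fun q => f (pj h q), hf.comp pjc, hf1, fun p q hp hq => ?_⟩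
    change f (pj h p) = f (pj h q)
    rw [pj_neg (not_lt.2 hp), pj_neg (not_lt.2 hq)]) (PhiF F bd) (om d * mu F d) hl
    (phiF_cont hF hd bd) hΦb
  have hcount := S.countable
  have hsub : ball (0 : E (d + 1)) (om d * mu F d) ⊆ {PhiF F bd Col.far} ∪
      ⋃ i, (fun p => PhiF F bd ((colChart lip (S.chart i)).map p)) ''
        (colChart lip (S.chart i)).D := by
    intro y hy
    obtain ⟨q, rfl⟩ := hcov hy
    rcases pj_surj q with rfl | ⟨m, hm, rfl⟩
    · exact Or.inl rfl
    right
    rcases S.cover m hm with ⟨x, rfl⟩ | ⟨i, p, hp, rfl⟩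
    · exfalso
      have h1 : PhiF F bd (pj h (S.bd x)) = (om d * mu F d) • (x : E (d + 1)) := hΦb x
      rw [h1, mem_ball_zero_iff, norm_smul, norm_sph, mul_one, Real.norm_of_nonneg hl.le] at hy
      exact lt_irrefl _ hy
    · exact mem_iUnion.mpr ⟨i, ⟨p, ⟨hp, hm⟩, rfl⟩⟩
  have htot : volume (ball (0 : E (d + 1)) (om d * mu F d)) ≤
      ENNReal.ofReal (om (d + 1) ^ (d + 1)) * S.posVol := by
    calc volume (ball (0 : E (d + 1)) (om d * mu F d))
        ≤ volume ({PhiF F bd Col.far} ∪
          ⋃ i, (fun p => PhiF F bd ((colChart lip (S.chart i)).map p)) ''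
            (colChart lip (S.chart i)).D) := measure_mono hsub
      _ ≤ volume ({PhiF F bd Col.far} : Set (E (d + 1))) +
          volume (⋃ i, (fun p => PhiF F bd ((colChart lip (S.chart i)).map p)) ''
            (colChart lip (S.chart i)).D) := measure_union_le _ _
      _ = volume (⋃ i, (fun p => PhiF F bd ((colChart lip (S.chart i)).map p)) ''
            (colChart lip (S.chart i)).D) := by rw [measure_singleton, zero_add]
      _ ≤ ∑' i, volume ((fun p => PhiF F bd ((colChart lip (S.chart i)).map p)) ''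
                (colChart lip (S.chart i)).D) := measure_iUnion_le _
      _ ≤ ∑' i, ENNReal.ofReal (om (d + 1) ^ (d + 1)) *
                  ∫⁻ p in (colChart lip (S.chart i)).D,
                    ENNReal.ofReal √((colChart lip (S.chart i)).G p).det :=
                ENNReal.tsum_le_tsum fun i => chart_imageF hF hd bd (colChart lip (S.chart i))
      _ = _ := ENNReal.tsum_mul_left
  rw [Measure.addHaar_ball _ _ hl.le] at htot
  have hfin : Module.finrank ℝ (E (d + 1)) = d + 1 := by simp
  rw [hfin] at htot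
  have hne : ENNReal.ofReal (om (d + 1) ^ (d + 1)) ≠ 0 := by
    rw [Ne, ENNReal.ofReal_eq_zero, not_le]
    positivity
  rw [← ENNReal.mul_le_mul_iff_right hne ENNReal.ofReal_ne_top]
  refine le_trans (le_of_eq ?_) htot
  rw [mul_comm (volume (ball (0 : E (d + 1)) 1)), ← mul_assoc, ← ENNReal.ofReal_mul (by positivity)]
  congr 2
  rw [hom, div_pow, mul_pow, mul_pow]
  field_simp

/-- `min (t, ρ)` -/
theorem profile_min {ρ : ℝ} (hρ : 0 ≤ ρ) : Profile fun t => min t ρ where
  cont := continuous_id.min continuous_const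
  mono := fun _ _ h => min_le_min_right ρ h
  zero := min_eq_left hρ
  sub := fun a b ha hb => by
    rcases min_choice a ρ with h | h <;> rcases min_choice b ρ with h' | h' <;> simp only [h, h']
    · exact min_le_left _ _
    · exact (min_le_right _ _).trans (by linarith)
    · exact (min_le_right _ _).trans (by linarith)
    · exact (min_le_right _ _).trans (by linarith)
  le := fun _ _ => min_le_left _ _

theorem mu_min {ρ : ℝ} (hρ : 0 ≤ ρ) (hρ' : ρ ≤ Real.pi) {d : ℕ} (hd : 1 ≤ d) :
    mu (fun t => min t ρ) d = ∫ t in (0 : ℝ)..ρ, Real.sin t ^ d := by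
  have hd0 : d ≠ 0 := by omega
  unfold mu
  have hcont : ∀ a b : ℝ, IntervalIntegrable
      (fun t => (min t ρ * Real.cos t) * Real.sin t ^ (d - 1)) volume a b := fun a b =>
    Continuous.intervalIntegrable (by fun_prop) a b
  rw [← intervalIntegral.integral_add_adjacent_intervals (hcont 0 ρ) (hcont ρ Real.pi)]
  have e1 : ∫ t in (0 : ℝ)..ρ, (min t ρ * Real.cos t) * Real.sin t ^ (d - 1) =
      ∫ t in (0 : ℝ)..ρ, (t * Real.cos t) * Real.sin t ^ (d - 1) := by
    refine intervalIntegral.integral_congr fun t ht => ?_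
    rw [uIcc_of_le hρ] at ht
    rw [min_eq_left ht.2]
  have e2 : ∫ t in ρ..Real.pi, (min t ρ * Real.cos t) * Real.sin t ^ (d - 1) =
      ∫ t in ρ..Real.pi, (ρ * Real.cos t) * Real.sin t ^ (d - 1) := by
    refine intervalIntegral.integral_congr fun t ht => ?_
    rw [uIcc_of_le hρ'] at ht
    rw [min_eq_right ht.1]
  have i1 : ∫ t in (0 : ℝ)..ρ,
      (Real.sin t ^ d + (d : ℝ) * ((t * Real.cos t) * Real.sin t ^ (d - 1))) =
      ρ * Real.sin ρ ^ d := by
    have h2 : ∀ t ∈ Set.uIcc (0 : ℝ) ρ, HasDerivAt (fun t : ℝ => t * Real.sin t ^ d)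
        (Real.sin t ^ d + (d : ℝ) * ((t * Real.cos t) * Real.sin t ^ (d - 1))) t := by
      intro t _
      have h3 := (hasDerivAt_id t).mul ((Real.hasDerivAt_sin t).pow d)
      refine (h3.congr_deriv ?_)
      simp only [id]
      simp
      ring
    rw [intervalIntegral.integral_eq_sub_of_hasDerivAt h2]
    · simp
    · apply Continuous.intervalIntegrable
      fun_prop
  have i2 : ∫ t in ρ..Real.pi, (d : ℝ) * ((ρ * Real.cos t) * Real.sin t ^ (d - 1)) =
      -(ρ * Real.sin ρ ^ d) := by
    have h2 : ∀ t ∈ Set.uIcc ρ Real.pi, HasDerivAt (fun t : ℝ => ρ * Real.sin t ^ d)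
        ((d : ℝ) * ((ρ * Real.cos t) * Real.sin t ^ (d - 1))) t := by
      intro t _
      have h3 := ((Real.hasDerivAt_sin t).pow d).const_mul ρ
      refine (h3.congr_deriv ?_)
      ring
    rw [intervalIntegral.integral_eq_sub_of_hasDerivAt h2]
    · simp [hd0]
    · apply Continuous.intervalIntegrable
      fun_prop
  rw [intervalIntegral.integral_const_mul] at i2
  rw [intervalIntegral.integral_add, intervalIntegral.integral_const_mul] at i1
  · rw [e1, e2, mul_add]
    linarith
  · apply Continuous.intervalIntegrable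
    fun_prop
  · apply Continuous.intervalIntegrable
    fun_prop

theorem mu_min_pos {ρ : ℝ} (hρ : 0 < ρ) (hρ' : ρ ≤ Real.pi) {d : ℕ} :
    0 < ∫ t in (0 : ℝ)..ρ, Real.sin t ^ d := by
  refine intervalIntegral.intervalIntegral_pos_of_pos_on
    (Continuous.intervalIntegrable (by fun_prop) _ _) (fun t ht => ?_) hρ
  exact pow_pos (Real.sin_pos_of_pos_of_lt_pi ht.1 (lt_of_lt_of_le ht.2 hρ')) d

end Pool.Agent.Q146.FVD
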